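import Pool.Agent.Y748.SR.Stm

/-!
Project SR, second part: sequences of points with given correlation functions, their gaps;
positive definite functions.
-/

open Finset Filter Topology MeasureTheory

set_option autoImplicit false

namespace Pool.Agent.Y748.SR

/-- the mean over `0 ≤ x ≤ N` of the number of the `k`-tuples of distinct indices `n_i ≥ 1` with
`u (n_i) - x` in `[a_i, b_i]` -/
noncomputable def corr (u : ℕ → ℝ) (k N : ℕ) (a b : Fin k → ℝ) : ℝ :=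
  (1 / N : ℝ) * ∫ x in (0 : ℝ)..N, ({n : Fin k → ℕ | Function.Injective n ∧
    ∀ i, 1 ≤ n i ∧ u (n i) - x ∈ Set.Icc (a i) (b i)}.ncard : ℝ)

/-- the sequence `u 1 ≤ u 2 ≤ …` has density one and few terms in every unit interval -/
structure Sq (u : ℕ → ℝ) : Prop where
  mono : ∀ n, 1 ≤ n → u n ≤ u (n + 1)
  pos : 0 < u 1
  lim : Tendsto (fun n : ℕ => u n / n) atTop (𝓝 1)
  loc : ∃ C : ℝ, ∀ x : ℝ, 0 ≤ x →
    ({n : ℕ | 1 ≤ n ∧ u n ∈ Set.Icc x (x + 1)}.ncard : ℝ) ≤ C * Real.log (x + 2)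

/-- the correlation functions of the sine process -/
noncomputable def sdet {k : ℕ} (x : Fin k → ℝ) : ℝ :=
  Matrix.det (Matrix.of fun i j => sn (x i - x j))

/-- the gap probability `det (1 - K)` on `L²(0, s)`, by Fredholm's series -/
noncomputable def EG (s : ℝ) : ℝ :=
  ∑' k : ℕ, (-1) ^ k / (k.factorial : ℝ) *
    ∫ x : Fin k → ℝ in Set.Icc (fun _ => 0) (fun _ => s), sdet x

/-- Hadamard's inequality for the sine kernel -/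
def S_DET01 : Prop := ∀ (k : ℕ) (x : Fin k → ℝ), 0 ≤ sdet x ∧ sdet x ≤ 1

/-- the set of the `x` in `[0, N]` with no point in `[x, x + s]` -/
def hole (u : ℕ → ℝ) (s : ℝ) (N : ℕ) : Set ℝ :=
  {x : ℝ | 0 ≤ x ∧ x ≤ N ∧ ∀ n : ℕ, 1 ≤ n → u n ∉ Set.Icc x (x + s)}

/-- empty intervals from the correlations (inclusion and exclusion) -/
def S_HOLE : Prop := ∀ u : ℕ → ℝ, Sq u → ∀ (I : Type) (l : Filter I) (N : I → ℕ),
  Tendsto N l atTop → (∀ (k : ℕ) (a b : Fin k → ℝ),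
    Tendsto (fun j => corr u k (N j) a b) l (𝓝 (∫ x in Set.Icc a b, sdet x))) →
  ∀ s : ℝ, 0 ≤ s →
    Tendsto (fun j => (1 / N j : ℝ) * (volume (hole u s (N j))).toReal) l (𝓝 (EG s))

/-- empty intervals and gaps -/
def S_GAPX : Prop := ∀ u : ℕ → ℝ, Sq u → ∀ s : ℝ, 0 ≤ s →
  Tendsto (fun N : ℕ => (1 / N : ℝ) * (∑ n ∈ Finset.Icc 1 N, max (u (n + 1) - u n - s) 0) -
    (1 / N : ℝ) * (volume (hole u s N)).toReal) atTop (𝓝 0)

/-- the distribution of the gaps from the means of `max (gap - s) 0` -/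
def S_CONV : Prop := ∀ (d : ℕ → ℝ), (∀ n, 1 ≤ n → 0 ≤ d n) →
  ∀ (I : Type) (l : Filter I) (N : I → ℕ), Tendsto N l atTop → ∀ (E F : ℝ → ℝ),
  ContDiff ℝ 2 F → (∀ s, 0 ≤ s → E s = F s) → deriv F 0 = -1 →
  (∀ s : ℝ, 0 ≤ s → Tendsto (fun j => (1 / N j : ℝ) *
    ∑ n ∈ Finset.Icc 1 (N j), max (d n - s) 0) l (𝓝 (E s))) →
  ∀ a b : ℝ, 0 ≤ a → a < b →
    Tendsto (fun j => ({n : ℕ | 1 ≤ n ∧ n ≤ N j ∧ a < d n ∧ d n ≤ b}.ncard : ℝ) / N j) l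
      (𝓝 (∫ s in a..b, deriv (deriv E) s))

/-- regularity of the gap probability -/
def S_EREG : Prop := ∃ F : ℝ → ℝ, ContDiff ℝ 2 F ∧ (∀ s, 0 ≤ s → EG s = F s) ∧ deriv F 0 = -1

/-- pair sums from the pair correlation -/
def S_ML : Prop := ∀ u : ℕ → ℝ, Sq u → ∀ (I : Type) (l : Filter I) (N : I → ℕ),
  Tendsto N l atTop → ∀ h : ℝ → ℝ, Continuous h → (∀ v, h (-v) = h v) → (∀ v, 0 ≤ h v) →
  (∀ a b : Fin 2 → ℝ, Tendsto (fun j => corr u 2 (N j) a b) l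
    (𝓝 (∫ x in Set.Icc a b, h (x 0 - x 1)))) →
  ∀ f : ℝ → ℝ, Continuous f → HasCompactSupport f →
    Tendsto (fun j => (1 / N j : ℝ) *
      ∑ᶠ p ∈ {p : ℕ × ℕ | 1 ≤ p.1 ∧ 1 ≤ p.2 ∧ p.1 ≠ p.2 ∧ u p.1 ≤ N j ∧ u p.2 ≤ N j},
        f (u p.1 - u p.2)) l (𝓝 (∫ v, f v * h v))

/-- one point -/
def S_ONEP : Prop := ∀ u : ℕ → ℝ, Sq u → ∀ (I : Type) (l : Filter I) (N : I → ℕ),
  Tendsto N l atTop → ∀ a b : ℝ, a ≤ b →
    Tendsto (fun j => corr u 1 (N j) (fun _ => a) (fun _ => b)) l (𝓝 (b - a))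

/-- positive definiteness with repeated points -/
def S_PD : Prop := ∀ g : ℝ → ℝ, Continuous g →
  (∀ (Y : Finset ℝ) (c : ℝ → ℝ),
    0 ≤ ∑ i ∈ Y, c i ^ 2 + ∑ i ∈ Y, ∑ j ∈ Y.erase i, g (i - j) * (c i * c j)) →
  ∀ (n : ℕ) (x c : Fin n → ℝ), 0 ≤ ∑ i, ∑ j, c i * c j * g (x i - x j)

/-- `r(x) = ∫ R(α) cos(2π x α) dα` -/
noncomputable def rr (R : ℝ → ℝ) (x : ℝ) : ℝ :=
  ∫ α in (-1 : ℝ)..1, R α * Real.cos (2 * Real.pi * x * α)

/-- test functions -/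
structure TFn (R : ℝ → ℝ) (κ : ℝ) : Prop where
  cont : Continuous R
  even : ∀ α, R (-α) = R α
  supp : ∀ α, κ ≤ |α| → R α = 0
  decay : ∃ K : ℝ, ∀ x : ℝ, |rr R x| ≤ K / (1 + x ^ 2)

/-- Fourier inversion at the origin -/
def S_INV : Prop := ∀ (R : ℝ → ℝ) (κ : ℝ), 0 < κ → κ < 1 → TFn R κ → ∫ x, rr R x = R 0

/-- a positive definite function of mass at most one whose Fourier transform is the tent inside
`(-1, 1)` -/
def S_BOCH : Prop := ∀ g : ℝ → ℝ, Continuous g → (∀ v, g (-v) = g v) →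
  (∀ (n : ℕ) (x c : Fin n → ℝ), 0 ≤ ∑ i, ∑ j, c i * c j * g (x i - x j)) → g 0 ≤ 1 →
  (∀ (R : ℝ → ℝ) (κ : ℝ), 0 < κ → κ < 1 → TFn R κ →
    ∫ v, rr R v * g v = ∫ α in (-1 : ℝ)..1, R α * (1 - |α|)) →
  ∀ v, g v = sn v ^ 2

end Pool.Agent.Y748.SR
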