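import Pool.Agent.Y748.Seq2
import Pool.Agent.Y748.SR.Stm2

/-!
Project SR: the pair correlation from Montgomery's theorem in dyadic blocks.
-/

open Finset Filter Topology MeasureTheory

set_option autoImplicit false

namespace Pool.Agent.Y748.SR

/-- the value of `∑ r` per point -/
noncomputable def mt (R : ℝ → ℝ) : ℝ := R 0 + ∫ α in (-1 : ℝ)..1, |α| * R α

/-- Montgomery's theorem in the dyadic blocks; `NZ T` is the number of the `n` with `γ n ≤ T` -/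
structure Blk (γ : ℕ → ℝ) (NZ : ℝ → ℕ) : Prop where
  good : Good γ NZ
  pair : ∀ (R : ℝ → ℝ) (κ : ℝ), 0 < κ → κ < 1 → TFn R κ → ∀ ε : ℝ, 0 < ε →
    ∃ T0 : ℝ, ∀ T : ℝ, T0 ≤ T →
      |∑ n ∈ Finset.Ioc (NZ T) (NZ (2 * T)), ∑ m ∈ Finset.Ioc (NZ T) (NZ (2 * T)),
          rr R ((γ n - γ m) * Real.log T / (2 * Real.pi)) - mt R * ((NZ (2 * T) : ℝ) - NZ T)| ≤
        ε * ((NZ (2 * T) : ℝ) - NZ T)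
  sq : Sq fun n => nrm (γ n)

/-- the cutoff -/
noncomputable def cut (K : ℕ) (v : ℝ) : ℝ := max 0 (min 1 (K + 1 - |v|))

/-- the far pairs from the close pairs -/
def S_TAIL : Prop := ∀ (S : Finset ℕ) (x : ℕ → ℝ) (K : ℕ), 1 ≤ K →
  (∑ n ∈ S, ∑ m ∈ S, if (K : ℝ) ≤ |x n - x m| then 1 / (1 + (x n - x m) ^ 2) else 0) ≤
      8 / K * ∑ n ∈ S, ∑ m ∈ S, (if |x n - x m| ≤ 1 then 1 else 0 : ℝ) ∧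
  (∑ n ∈ S, ∑ m ∈ S, (if |x n - x m| ≤ (K : ℝ) then 1 else 0 : ℝ)) ≤
      4 * K * ∑ n ∈ S, ∑ m ∈ S, (if |x n - x m| ≤ 1 then 1 else 0 : ℝ)

/-- a nonnegative test function -/
def S_TENT : Prop := ∃ (R : ℝ → ℝ) (κ : ℝ), 0 < κ ∧ κ < 1 ∧ TFn R κ ∧ (∀ x, 0 ≤ rr R x) ∧
  ∀ x, |x| ≤ 1 → 1 / 10 ≤ rr R x

/-- the blocks with the normalised points, and a cutoff -/
def S_BLK2 : Prop := ∀ (γ : ℕ → ℝ) (NZ : ℝ → ℕ), Blk γ NZ → ∀ (R : ℝ → ℝ) (κ : ℝ), 0 < κ → κ < 1 →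
  TFn R κ → ∃ C : ℝ, 0 ≤ C ∧ ∀ K : ℕ, 1 ≤ K → ∀ ε : ℝ, 0 < ε → ∃ T0 : ℝ, ∀ T : ℝ, T0 ≤ T →
    |∑ n ∈ Finset.Ioc (NZ T) (NZ (2 * T)), ∑ m ∈ Finset.Ioc (NZ T) (NZ (2 * T)),
        rr R (nrm (γ n) - nrm (γ m)) * cut K (nrm (γ n) - nrm (γ m)) -
          mt R * ((NZ (2 * T) : ℝ) - NZ T)| ≤
      (ε + C / K) * ((NZ (2 * T) : ℝ) - NZ T)

/-- from the blocks to all points -/
def S_DYA : Prop := ∀ (γ : ℕ → ℝ) (NZ : ℝ → ℕ), Blk γ NZ → ∀ (f : ℝ → ℝ) (c η K B : ℝ), 0 ≤ η →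
  Continuous f → (∀ v, K ≤ |v| → f v = 0) → (∀ v, |f v| ≤ B) →
  (∃ T0 : ℝ, ∀ T : ℝ, T0 ≤ T →
    |∑ n ∈ Finset.Ioc (NZ T) (NZ (2 * T)), ∑ m ∈ Finset.Ioc (NZ T) (NZ (2 * T)),
        f (nrm (γ n) - nrm (γ m)) - c * ((NZ (2 * T) : ℝ) - NZ T)| ≤
      η * ((NZ (2 * T) : ℝ) - NZ T)) →
  ∀ ε : ℝ, 0 < ε → ∀ᶠ N : ℕ in atTop,
    |(1 / N : ℝ) * ∑ᶠ p ∈ {p : ℕ × ℕ | 1 ≤ p.1 ∧ 1 ≤ p.2 ∧ p.1 ≠ p.2 ∧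
        nrm (γ p.1) ≤ N ∧ nrm (γ p.2) ≤ N}, f (nrm (γ p.1) - nrm (γ p.2)) - (c - f 0)| ≤ η + ε

/-- the pair correlation function integrated against the test functions -/
def S_MONT : Prop := ∀ (γ : ℕ → ℝ) (NZ : ℝ → ℕ), Blk γ NZ → ∀ (I : Type) (l : Filter I),
  l.NeBot → ∀ N : I → ℕ, Tendsto N l atTop → ∀ h : ℝ → ℝ, Continuous h → (∀ v, h (-v) = h v) →
  (∀ v, 0 ≤ h v) → (∀ v, h v ≤ 2) →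
  (∀ a b : Fin 2 → ℝ, Tendsto (fun j => corr (fun n => nrm (γ n)) 2 (N j) a b) l
    (𝓝 (∫ x in Set.Icc a b, h (x 0 - x 1)))) →
  ∀ (R : ℝ → ℝ) (κ : ℝ), 0 < κ → κ < 1 → TFn R κ → ∫ v, rr R v * h v = mt R - rr R 0

end Pool.Agent.Y748.SR
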