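import Pool.Agent.Y748.SR.Rho

/-!
Project SR: the pair correlation function is the one of the sine process.
-/

open Finset Filter Topology MeasureTheory

set_option autoImplicit false

namespace Pool.Agent.Y748.SR

variable {ρ : ∀ k : ℕ, (Fin k → ℝ) → ℝ}

/-- the correlations converge along `l` -/
structure LimC {I : Type} (l : Filter I) (u : ℕ → ℝ) (N : I → ℕ)
    (ρ : ∀ k : ℕ, (Fin k → ℝ) → ℝ) : Prop where
  tend : Tendsto N l atTop
  lim : ∀ (k : ℕ) (a b : Fin k → ℝ),
    Tendsto (fun j => corr u k (N j) a b) l (𝓝 (∫ x in Set.Icc a b, ρ k x))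

theorem corr_zero (u : ℕ → ℝ) {N : ℕ} (hN : 1 ≤ N) (a b : Fin 0 → ℝ) : corr u 0 N a b = 1 := by
  have h1 : ∀ x : ℝ, ({n : Fin 0 → ℕ | Function.Injective n ∧
      ∀ i, 1 ≤ n i ∧ u (n i) - x ∈ Set.Icc (a i) (b i)}.ncard : ℝ) = 1 := by
    intro x
    have : {n : Fin 0 → ℕ | Function.Injective n ∧
      ∀ i, 1 ≤ n i ∧ u (n i) - x ∈ Set.Icc (a i) (b i)} = Set.univ := by
      ext n
      simp only [Set.mem_setOf_eq, Set.mem_univ, iff_true]
      exact ⟨fun i => i.elim0, fun i => i.elim0⟩
    rw [this, Set.ncard_univ]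
    simp
  unfold corr
  simp only [h1]
  rw [intervalIntegral.integral_const]
  have : (N : ℝ) ≠ 0 := by
    have : N ≠ 0 := by omega
    exact_mod_cast this
  simp [this]

theorem rho_zero {I : Type} {l : Filter I} [l.NeBot] {u : ℕ → ℝ} {N : I → ℕ}
    (H : LimC l u N ρ) (x : Fin 0 → ℝ) : ρ 0 x = 1 := by
  have h1 := H.lim 0 x x
  have h2 : Tendsto (fun j => corr u 0 (N j) x x) l (𝓝 1) := by
    refine tendsto_const_nhds.congr' ?_
    filter_upwards [H.tend.eventually (eventually_ge_atTop 1)] with j hj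
    exact (corr_zero u hj x x).symm
  have h3 := tendsto_nhds_unique h1 h2
  rw [← h3]
  have h4 : Set.Icc x x = Set.univ := by
    ext y
    simp [Subsingleton.elim y x]
  rw [h4, Measure.restrict_univ, volume_pi, Measure.pi_of_empty _ x, integral_dirac]

theorem rho_one (hONEP : S_ONEP) {I : Type} {l : Filter I} [l.NeBot] {u : ℕ → ℝ} (hu : Sq u)
    {N : I → ℕ} (h : Cor ρ) (H : LimC l u N ρ) (x : Fin 1 → ℝ) : ρ 1 x = 1 := by
  have h1 := H.lim 1 (fun _ => 0) (fun _ => 1)
  have h2 := hONEP u hu I l N H.tend 0 1 zero_le_one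
  have h3 := tendsto_nhds_unique h1 h2
  have hc : ∀ y : Fin 1 → ℝ, ρ 1 y = ρ 1 x := by
    intro y
    rw [← h.stat 1 x (y 0 - x 0)]
    congr 1
    ext i
    rw [Subsingleton.elim i 0]
    ring
  simp only [hc] at h3
  rw [setIntegral_const] at h3
  have h4 : (volume : Measure (Fin 1 → ℝ)).real (Set.Icc (fun _ => 0) (fun _ => 1)) = 1 := by
    rw [measureReal_def, Real.volume_Icc_pi]
    simp
  rw [h4] at h3
  simpa using h3

theorem rr_cont {R : ℝ → ℝ} (hR : Continuous R) : Continuous (rr R) := by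
  unfold rr
  apply intervalIntegral.continuous_parametric_intervalIntegral_of_continuous'
  fun_prop

theorem rr_int {R : ℝ → ℝ} {κ : ℝ} (hR : TFn R κ) : Integrable (rr R) := by
  obtain ⟨K, hK⟩ := hR.decay
  refine Integrable.mono' (integrable_inv_one_add_sq.const_mul K)
    (rr_cont hR.cont).aestronglyMeasurable (Eventually.of_forall fun x => ?_)
  rw [Real.norm_eq_abs]
  exact hK x

theorem rr_mul_int {R : ℝ → ℝ} {κ : ℝ} (hR : TFn R κ) {h : ℝ → ℝ} (hc : Continuous h) {B : ℝ}
    (hB : ∀ v, |h v| ≤ B) : Integrable fun v => rr R v * h v := by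
  refine (rr_int hR).mul_bdd (c := B) hc.aestronglyMeasurable (Eventually.of_forall fun x => ?_)
  rw [Real.norm_eq_abs]
  exact hB x

theorem hf_eq (hPSD : S_PSD) (hPD : S_PD) (hINV : S_INV) (hBOCH : S_BOCH) (hMONT : S_MONT)
    (hONEP : S_ONEP) {γ : ℕ → ℝ} {NZ : ℝ → ℕ} (hB : Blk γ NZ) {I : Type} {l : Filter I}
    [l.NeBot] {N : I → ℕ} (h : Cor ρ) (H : LimC l (fun n => nrm (γ n)) N ρ) :
    ∀ v, hf ρ v = 1 - sn v ^ 2 := by
  have hone : ∀ x, rset ρ {x} = 1 := fun x => by
    rw [rset_single, rho_one hONEP hB.sq h H]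
  have hemp : rset ρ ∅ = 1 := by rw [rset_empty, rho_zero H]
  have hh0 : ∀ v, 0 ≤ hf ρ v := fun v => h.nonneg 2 _
  set g : ℝ → ℝ := fun v => 1 - hf ρ v with hg
  have hgc : Continuous g := continuous_const.sub (hf_cont h)
  have hge : ∀ v, g (-v) = g v := fun v => by simp only [hg, hf_even h]
  have hg0 : g 0 ≤ 1 := by simp only [hg]; linarith [hh0 0]
  have hpd := hPD g hgc (by
    intro Y c
    have h1 := hPSD ℝ (rset ρ) (stable_rset h) (fun B => h.nonneg _ _) hemp Y c
    have h2 : ∑ i ∈ Y, ∑ j ∈ Y.erase i, rset ρ {i, j} * (c i * c j) =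
        ∑ i ∈ Y, ∑ j ∈ Y.erase i, (c i * c j) -
          ∑ i ∈ Y, ∑ j ∈ Y.erase i, g (i - j) * (c i * c j) := by
      rw [← Finset.sum_sub_distrib]
      refine Finset.sum_congr rfl fun i hi => ?_
      rw [← Finset.sum_sub_distrib]
      refine Finset.sum_congr rfl fun j hj => ?_
      have hij : i ≠ j := (Finset.mem_erase.mp hj).1.symm
      rw [rset_pair h hij]
      simp only [hg]
      ring
    have h3 : (∑ i ∈ Y, rset ρ {i} * c i) ^ 2 =
        ∑ i ∈ Y, c i ^ 2 + ∑ i ∈ Y, ∑ j ∈ Y.erase i, c i * c j := by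
      simp only [hone, one_mul]
      rw [sq, Finset.sum_mul, ← Finset.sum_add_distrib]
      refine Finset.sum_congr rfl fun i hi => ?_
      rw [Finset.mul_sum, ← Finset.add_sum_erase Y _ hi]
      ring
    rw [h2, h3] at h1
    linarith)
  have hgb : ∀ v, |g v| ≤ 1 := by
    intro v
    have h1 := hpd 2 ![v, 0] ![1, 1]
    have h2 := hpd 2 ![v, 0] ![1, -1]
    simp only [Fin.sum_univ_two, Matrix.cons_val_zero, Matrix.cons_val_one, sub_self, sub_zero,
      zero_sub, hge] at h1 h2
    rw [abs_le]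
    constructor <;> nlinarith
  have hh2 : ∀ v, hf ρ v ≤ 2 := by
    intro v
    have := (abs_le.mp (hgb v)).1
    simp only [hg] at this
    linarith
  have hlim2 : ∀ a b : Fin 2 → ℝ, Tendsto (fun j => corr (fun n => nrm (γ n)) 2 (N j) a b) l
      (𝓝 (∫ x in Set.Icc a b, hf ρ (x 0 - x 1))) := by
    intro a b
    have h1 := H.lim 2 a b
    have h2 : ∫ x in Set.Icc a b, ρ 2 x = ∫ x in Set.Icc a b, hf ρ (x 0 - x 1) := by
      congr 1
      ext x
      exact rho2 h x
    rwa [h2] at h1
  have key := hBOCH g hgc hge hpd hg0 (by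
    intro R κ h0 h1 hR
    have h2 := hMONT γ NZ hB I l inferInstance N H.tend (hf ρ) (hf_cont h) (hf_even h) hh0 hh2
      hlim2 R κ h0 h1 hR
    have h3 := hINV R κ h0 h1 hR
    have h4 : ∫ v, rr R v * g v = (∫ v, rr R v) - ∫ v, rr R v * hf ρ v := by
      rw [← integral_sub (rr_int hR) (rr_mul_int hR (hf_cont h) (B := 2) (fun v => by
        rw [abs_of_nonneg (hh0 v)]; exact hh2 v))]
      congr 1
      ext v
      simp only [hg]
      ring
    rw [h4, h2, h3]
    have h5 : rr R 0 = ∫ α in (-1 : ℝ)..1, R α := by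
      unfold rr
      congr 1
      ext α
      simp
    have h6 : ∫ α in (-1 : ℝ)..1, R α * (1 - |α|) =
        (∫ α in (-1 : ℝ)..1, R α) - ∫ α in (-1 : ℝ)..1, |α| * R α := by
      have i1 : IntervalIntegrable R volume (-1) 1 := hR.cont.intervalIntegrable _ _
      have i2 : IntervalIntegrable (fun α : ℝ => |α| * R α) volume (-1) 1 :=
        (continuous_abs.mul hR.cont).intervalIntegrable _ _
      rw [← intervalIntegral.integral_sub i1 i2]
      congr 1
      ext α
      ring
    rw [h6, h5]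
    unfold mt
    ring)
  intro v
  have := key v
  simp only [hg] at this
  linarith

theorem pr_rset (hPSD : S_PSD) (hPD : S_PD) (hINV : S_INV) (hBOCH : S_BOCH) (hMONT : S_MONT)
    (hONEP : S_ONEP) {γ : ℕ → ℝ} {NZ : ℝ → ℕ} (hB : Blk γ NZ) {I : Type} {l : Filter I}
    [l.NeBot] {N : I → ℕ} (h : Cor ρ) (H : LimC l (fun n => nrm (γ n)) N ρ) : Pr (rset ρ) where
  st := stable_rset h
  nn := fun B => h.nonneg _ _
  em := by rw [rset_empty, rho_zero H]
  one := fun x => by rw [rset_single, rho_one hONEP hB.sq h H]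
  two := fun x y hxy => by
    rw [rset_pair h hxy, hf_eq hPSD hPD hINV hBOCH hMONT hONEP hB h H]

/-! ### the sine process -/

theorem gue_image {k : ℕ} (x : Fin k → ℝ) (hx : Function.Injective x) :
    gue (univ.image x) = sdet x := by
  unfold gue sdet
  have hb : Function.Bijective (fun i : Fin k =>
      (⟨x i, Finset.mem_image_of_mem x (Finset.mem_univ i)⟩ : (univ.image x : Finset ℝ))) := by
    constructor
    · intro i j hij
      exact hx (congrArg Subtype.val hij)
    · rintro ⟨y, hy⟩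
      obtain ⟨i, _, rfl⟩ := Finset.mem_image.mp hy
      exact ⟨i, rfl⟩
  rw [← Matrix.det_submatrix_equiv_self (Equiv.ofBijective _ hb)]
  rfl

theorem pr_gue (hGUE : S_GUE) (hMIN : S_MIN) : Pr gue where
  st := (hGUE hMIN).1
  nn := (hGUE hMIN).2
  em := by
    unfold gue
    exact Matrix.det_isEmpty
  one := fun x => by
    have h1 : ({x} : Finset ℝ) = univ.image (fun _ : Fin 1 => x) := by
      ext u
      simp [eq_comm]
    rw [h1, gue_image _ (Function.injective_of_subsingleton _)]
    unfold sdet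
    rw [Matrix.det_fin_one]
    simp [sn_zero]
  two := fun x y hxy => by
    have h1 : ({x, y} : Finset ℝ) = univ.image ![x, y] := by
      ext u
      simp only [Finset.mem_insert, Finset.mem_singleton, Finset.mem_image, Finset.mem_univ,
        true_and, Fin.exists_fin_two]
      simp [eq_comm]
    have hm : Function.Injective ![x, y] := by
      intro i j hij
      fin_cases i <;> fin_cases j <;> simp_all
    rw [h1, gue_image _ hm]
    unfold sdet
    rw [Matrix.det_fin_two]
    simp only [Matrix.of_apply, Matrix.cons_val_zero, Matrix.cons_val_one, sub_self, sn_zero]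
    rw [← neg_sub x y, sn_neg]
    ring

/-! ### all points -/

theorem sdet_cont (k : ℕ) : Continuous (sdet (k := k)) := by
  unfold sdet sn
  refine Continuous.matrix_det ?_
  refine continuous_matrix fun i j => ?_
  simp only [Matrix.of_apply]
  exact Real.continuous_sinc.comp (by fun_prop)

theorem sdet_perm {k : ℕ} (σ : Equiv.Perm (Fin k)) (x : Fin k → ℝ) : sdet (x ∘ σ) = sdet x := by
  unfold sdet
  rw [← Matrix.det_submatrix_equiv_self σ (Matrix.of fun i j => sn (x i - x j))]
  rfl

/-- `ρ_k` is the determinant -/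
theorem rho_eq {ρ : ∀ k : ℕ, (Fin k → ℝ) → ℝ} (h : Cor ρ)
    (huni : ∀ B : Finset ℝ, (∀ x ∈ B, ∀ x' ∈ B, x ≠ x' → NI x x') → rset ρ B = gue B)
    (k : ℕ) (x : Fin k → ℝ) : ρ k x = sdet x := by
  -- generic increasing points
  have h1 : ∀ x : Fin k → ℝ, StrictMono x → (∀ i j, i ≠ j → NI (x i) (x j)) → ρ k x = sdet x := by
    intro x hx hg
    rw [← rset_image (ρ := ρ) x hx, ← gue_image x hx.injective]
    apply huni
    intro y hy y' hy' hne
    obtain ⟨i, _, rfl⟩ := Finset.mem_image.mp hy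
    obtain ⟨j, _, rfl⟩ := Finset.mem_image.mp hy'
    exact hg i j (fun h => hne (by rw [h]))
  -- generic points
  have h2 : ∀ x : Fin k → ℝ, (∀ i j, i ≠ j → NI (x i) (x j)) → ρ k x = sdet x := by
    intro x hg
    have hinj : Function.Injective x := by
      intro i j hij
      by_contra hne
      exact (hg i j hne).ne hij
    have hm : StrictMono (x ∘ Tuple.sort x) :=
      (Tuple.monotone_sort x).strictMono_of_injective (hinj.comp (Equiv.injective _))
    rw [← h.symm k (Tuple.sort x) x, ← sdet_perm (Tuple.sort x) x]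
    apply h1 _ hm
    intro i j hij
    exact hg _ _ (fun h => hij ((Tuple.sort x).injective h))
  -- all points
  set F : ℝ → ℝ := fun t => ρ k (fun i => x i + t * (i : ℕ)) with hF
  set G : ℝ → ℝ := fun t => sdet (fun i : Fin k => x i + t * (i : ℕ)) with hG
  have hFc : Continuous F := (h.cont k).comp (by fun_prop)
  have hGc : Continuous G := (sdet_cont k).comp (by fun_prop)
  set C : Set ℝ := ⋃ (i : Fin k) (j : Fin k) (n : ℤ),
    {(((n : ℝ) - (x i - x j)) / ((i : ℕ) - (j : ℕ) : ℝ))} with hC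
  have hCc : C.Countable := by
    rw [hC]
    exact Set.countable_iUnion fun i => Set.countable_iUnion fun j => Set.countable_iUnion fun n =>
      Set.countable_singleton _
  have hFG : F = G := by
    refine Continuous.ext_on (hCc.dense_compl ℝ) hFc hGc ?_
    intro t ht
    apply h2
    intro i j hij n hn
    apply ht
    rw [hC]
    simp only [Set.mem_iUnion, Set.mem_singleton_iff]
    refine ⟨i, j, n, ?_⟩
    have hij' : ((i : ℕ) : ℝ) - (j : ℕ) ≠ 0 := by
      rw [sub_ne_zero]
      intro h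
      apply hij
      exact Fin.ext (by exact_mod_cast h)
    rw [eq_div_iff hij']
    linarith
  have := congrFun hFG 0
  simpa [hF, hG] using this

end Pool.Agent.Y748.SR
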