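import Pool.Agent.Y748.SR.Stm2

/-!
Project SR: limits of correlations are nonnegative, symmetric and stationary.
-/

open Finset Filter Topology MeasureTheory

set_option autoImplicit false

namespace Pool.Agent.Y748.SR

/-- continuous limits of the correlations are nonnegative, symmetric and stationary -/
def S_AUTO : Prop := ∀ u : ℕ → ℝ, Sq u → ∀ (I : Type) (l : Filter I), l.NeBot → ∀ N : I → ℕ,
  Tendsto N l atTop → ∀ (k : ℕ) (f : (Fin k → ℝ) → ℝ), Continuous f →
  (∀ a b : Fin k → ℝ, Tendsto (fun j => corr u k (N j) a b) l (𝓝 (∫ x in Set.Icc a b, f x))) →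
  (∀ x, 0 ≤ f x) ∧ (∀ (σ : Equiv.Perm (Fin k)) (x : Fin k → ℝ), f (x ∘ σ) = f x) ∧
    ∀ (x : Fin k → ℝ) (t : ℝ), f (fun i => x i + t) = f x

end Pool.Agent.Y748.SR
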