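import Pool.Agent.Y748.SR.Stm4
import Pool.Agent.Y748.SR.Stm6

/-!
Project SR, part 4: limits of the numbers of points in disjoint intervals, without any regularity.
-/

open Finset Filter Topology MeasureTheory

set_option autoImplicit false

namespace Pool.Agent.Y748.SR

/-- the mean over `0 ≤ x ≤ N` of the number of the `k`-tuples of distinct indices `n_i ≥ 1` with
`u (n_i) - x` in `(a_i, b_i]` -/
noncomputable def corO (u : ℕ → ℝ) (k N : ℕ) (a b : Fin k → ℝ) : ℝ :=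
  (1 / N : ℝ) * ∫ x in (0 : ℝ)..N, ({n : Fin k → ℕ | Function.Injective n ∧
    ∀ i, 1 ≤ n i ∧ u (n i) - x ∈ Set.Ioc (a i) (b i)}.ncard : ℝ)

/-- the intervals `(a_i, b_i]` are nonempty, disjoint and in increasing order -/
def Dis {k : ℕ} (a b : Fin k → ℝ) : Prop := (∀ i, a i < b i) ∧ ∀ i j, i < j → b i ≤ a j

/-- functionals of intervals -/
abbrev Mom : Type := ∀ k : ℕ, (Fin k → ℝ) → (Fin k → ℝ) → ℝ

/-- `m k a b` is the limit along `l` of the mean of the product of the numbers of points in the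
disjoint intervals `x + (a_i, b_i]` -/
structure IsLim {I : Type} (l : Filter I) (u : ℕ → ℝ) (N : I → ℕ) (m : Mom) : Prop where
  tend : Tendsto N l atTop
  lim : ∀ (k : ℕ) (a b : Fin k → ℝ), Dis a b →
    Tendsto (fun j => corO u k (N j) a b) l (𝓝 (m k a b))

/-- strongly Rayleigh: the polynomials `∑_S m(A_S) z^S` have no zeros in the product of upper
half-planes, for all disjoint intervals -/
def SRm (m : Mom) : Prop := ∀ (n : ℕ) (a b : Fin n → ℝ), Dis a b → ∀ z : Fin n → ℂ,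
  (∀ i, 0 < (z i).im) → ∑ S : Finset (Fin n), (m S.card (fun i => a (S.orderEmbOfFin rfl i))
    (fun i => b (S.orderEmbOfFin rfl i)) : ℂ) * ∏ i ∈ S, z i ≠ 0

/-- elementary properties of the limits -/
structure MF (m : Mom) : Prop where
  zero : ∀ a b : Fin 0 → ℝ, m 0 a b = 1
  one : ∀ a b : Fin 1 → ℝ, a 0 < b 0 → m 1 a b = b 0 - a 0
  nonneg : ∀ (k : ℕ) (a b : Fin k → ℝ), Dis a b → 0 ≤ m k a b
  stat : ∀ (k : ℕ) (a b : Fin k → ℝ) (t : ℝ), Dis a b →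
    m k (fun i => a i + t) (fun i => b i + t) = m k a b
  add : ∀ (k : ℕ) (a b : Fin k → ℝ) (i : Fin k) (c : ℝ), Dis a b → a i < c → c < b i →
    m k a b = m k a (Function.update b i c) + m k (Function.update a i c) b

/-- closed and half-open intervals -/
def S_CO : Prop := ∀ u : ℕ → ℝ, Sq u → ∀ (k N : ℕ) (a b : Fin k → ℝ),
  corr u k N a b = corO u k N a b

def S_MF : Prop := ∀ u : ℕ → ℝ, Sq u → ∀ (I : Type) (l : Filter I) (N : I → ℕ) (m : Mom),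
  l.NeBot → IsLim l u N m → MF m

/-- the set function of the intervals `(i/M, (i+1)/M]` -/
noncomputable def grid (m : Mom) (M : ℕ) (B : Finset ℤ) : ℝ :=
  (M : ℝ) ^ B.card * m B.card (fun i => ((B.orderEmbOfFin rfl i : ℤ) : ℝ) / M)
    (fun i => (((B.orderEmbOfFin rfl i : ℤ) : ℝ) + 1) / M)

def S_GR : Prop := ∀ m : Mom, MF m → SRm m → ∀ M : ℕ, 1 ≤ M →
  Stable (grid m M) ∧ (∀ B, 0 ≤ grid m M B) ∧ grid m M ∅ = 1 ∧ (∀ i, grid m M {i} = 1) ∧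
    ∀ (B : Finset ℤ) (t : ℤ), grid m M (B.image fun i => i + t) = grid m M B

/-- negative correlation -/
def S_NC : Prop := ∀ (X : Type) [DecidableEq X] (f : Finset X → ℝ), Ray f → (∀ B, 0 ≤ f B) →
  f ∅ = 1 → (∀ i, f {i} = 1) → ∀ (B : Finset X) (i : X), i ∉ B → f (insert i B) ≤ f B

def S_BD : Prop := ∀ m : Mom, MF m → SRm m → ∀ (k : ℕ) (a b : Fin k → ℝ), Dis a b →
  m k a b ≤ ∏ i, (b i - a i)

/-- one minus the pair correlation of the grid -/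
noncomputable def Gs (m : Mom) (M : ℕ) (d : ℤ) : ℝ := if d = 0 then 1 else 1 - grid m M {0, d}

/-- positive definite sequences -/
structure PDs (G : ℤ → ℝ) : Prop where
  zero : G 0 = 1
  even : ∀ d, G (-d) = G d
  le : ∀ d, |G d| ≤ 1
  pd : ∀ (n : ℕ) (x : Fin n → ℤ) (c : Fin n → ℝ), 0 ≤ ∑ i, ∑ j, c i * c j * G (x i - x j)

def S_GPD : Prop := ∀ m : Mom, MF m → SRm m → ∀ M : ℕ, 1 ≤ M → PDs (Gs m M)

/-- Poisson summation -/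
def S_POI : Prop := ∀ (R : ℝ → ℝ) (κ : ℝ), 0 < κ → κ < 1 → TFn R κ → ∀ M : ℕ, 3 ≤ M →
  ∀ θ : ℝ, |θ| ≤ 1 / 2 →
    (1 / M : ℝ) * ∑' d : ℤ, rr R (d / M) * Real.cos (2 * Real.pi * d * θ) = R (M * θ)

/-- positive symbols -/
def S_TOEP : Prop := ∀ G : ℤ → ℝ, PDs G → ∀ M : ℕ, 3 ≤ M → ∀ (R : ℝ → ℝ) (κ : ℝ), 0 < κ → κ < 1 →
  TFn R κ → ∀ (p0 p1 : ℝ) (k : ℤ),
    (∀ α, 0 ≤ p0 + p1 * Real.cos (2 * Real.pi * (k / M) * α) + R α) →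
    0 ≤ p0 + p1 * G k + (1 / M : ℝ) * ∑' d : ℤ, rr R (d / M) * G d

/-- trapezoids -/
def S_TRAP : Prop := ∀ κ1 κ2 : ℝ, 0 < κ1 → κ1 < κ2 → κ2 < 1 → ∃ χ : ℝ → ℝ,
  (∀ α, 0 ≤ χ α ∧ χ α ≤ 1) ∧ (∀ α, |α| ≤ κ1 → χ α = 1) ∧
    ∀ A B v : ℝ, TFn (fun α => (A + B * Real.cos (2 * Real.pi * v * α)) * χ α) κ2

/-- pair sums -/
noncomputable def psum (u : ℕ → ℝ) (N : ℕ) (f : ℝ → ℝ) : ℝ :=
  ∑ᶠ p ∈ {p : ℕ × ℕ | 1 ≤ p.1 ∧ 1 ≤ p.2 ∧ p.1 ≠ p.2 ∧ u p.1 ≤ N ∧ u p.2 ≤ N}, f (u p.1 - u p.2)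

/-- few close pairs -/
def PB (u : ℕ → ℝ) : Prop := ∀ K : ℕ, ∃ C : ℝ, ∀ᶠ N : ℕ in atTop,
  ({p : ℕ × ℕ | 1 ≤ p.1 ∧ 1 ≤ p.2 ∧ u p.1 ≤ N ∧ u p.2 ≤ N ∧ |u p.1 - u p.2| ≤ K}.ncard : ℝ) ≤
    C * N

/-- Montgomery's theorem for the sequence `u` -/
structure Mg (u : ℕ → ℝ) : Prop where
  pb : PB u
  mg : ∀ (R : ℝ → ℝ) (κ : ℝ), 0 < κ → κ < 1 → TFn R κ → ∃ C : ℝ, 0 ≤ C ∧ ∀ K : ℕ, 1 ≤ K →
    ∀ ε : ℝ, 0 < ε → ∀ᶠ N : ℕ in atTop,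
      |(1 / N : ℝ) * psum u N (fun v => rr R v * cut K v) - (mt R - rr R 0)| ≤ C / K + ε

def S_MG : Prop := ∀ (γ : ℕ → ℝ) (NZ : ℝ → ℕ), Blk γ NZ → Mg fun n => nrm (γ n)

/-- pair sums and the pairs of intervals of the grid -/
def S_GRID : Prop := ∀ u : ℕ → ℝ, Sq u → PB u → ∀ (f : ℝ → ℝ) (K : ℕ), Continuous f →
  (∀ v, f (-v) = f v) → (∀ v : ℝ, (K : ℝ) ≤ |v| → f v = 0) → ∃ C : ℝ, ∀ M : ℕ, 1 ≤ M →
  ∀ ω : ℝ, (∀ v w : ℝ, |v - w| ≤ 1 / M → |f v - f w| ≤ ω) → ∀ ε : ℝ, 0 < ε →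
    ∀ᶠ N : ℕ in atTop,
      |(1 / N : ℝ) * psum u N f - (f 0 * (M * corO u 2 N (fun _ => 0) (fun _ => 1 / M)) +
        ∑ d ∈ (Finset.Icc (-((K * M : ℕ) : ℤ)) ((K * M : ℕ) : ℤ)).erase 0, f (d / M) *
          (M * corO u 2 N ![0, d / M] ![1 / M, (d + 1) / M]))| ≤ C * ω + ε

/-- the sums over the grid -/
def S_EVAL : Prop := ∀ u : ℕ → ℝ, Sq u → Mg u → ∀ (I : Type) (l : Filter I) (N : I → ℕ) (m : Mom),
  l.NeBot → IsLim l u N m → (∀ M : ℕ, 1 ≤ M → PDs (Gs m M)) → ∀ (R : ℝ → ℝ) (κ : ℝ), 0 < κ →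
  κ < 1 → TFn R κ → ∀ ε : ℝ, 0 < ε → ∃ M0 : ℕ, ∀ M : ℕ, M0 ≤ M → ∀ᶠ j in l,
    |(1 / M : ℝ) * (∑' d : ℤ, rr R (d / M) * Gs m M d) - (∫ α in (-1 : ℝ)..1, R α * (1 - |α|)) -
      rr R 0 * (M * corO u 2 (N j) (fun _ => 0) (fun _ => 1 / M))| ≤ ε

/-- the pair correlation in the limit, and no mass on the diagonal -/
def S_PAIR2 : Prop := ∀ u : ℕ → ℝ, Sq u → Mg u → ∀ (I : Type) (l : Filter I) (N : I → ℕ)
  (m : Mom), l.NeBot → IsLim l u N m → (∀ M : ℕ, 1 ≤ M → PDs (Gs m M)) →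
  (∀ ε : ℝ, 0 < ε → ∃ M0 : ℕ, ∀ M : ℕ, M0 ≤ M → ∀ᶠ j in l,
    M * corO u 2 (N j) (fun _ => 0) (fun _ => 1 / M) ≤ ε) ∧
  ∀ (k : ℕ → ℤ) (v : ℝ), Tendsto (fun M : ℕ => (k M : ℝ) / M) atTop (𝓝 v) →
    Tendsto (fun M : ℕ => Gs m M (k M)) atTop (𝓝 (sn v ^ 2))

/-- pairwise differences are not integers -/
def Gen (B : Finset ℝ) : Prop := ∀ x ∈ B, ∀ y ∈ B, x ≠ y → NI x y

/-- the limit functional from the grids -/
def S_BOX : Prop := ∀ m : Mom, MF m → (∀ (k : ℕ) (a b : Fin k → ℝ), Dis a b →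
    m k a b ≤ ∏ i, (b i - a i)) →
  (∀ B : Finset ℝ, Gen B → Tendsto (fun M : ℕ => grid m M (B.image fun x => ⌊(M : ℝ) * x⌋)) atTop
    (𝓝 (gue B))) →
  ∀ (k : ℕ) (a b : Fin k → ℝ), Dis a b →
    m k a b = ∫ x in Set.univ.pi fun i => Set.Ioc (a i) (b i), sdet x

/-- large deviations of the gaps -/
def LDH (u : ℕ → ℝ) : Prop := ∃ c : ℝ, 0 < c ∧ ∃ m0 : ℕ, 1 ≤ m0 ∧ ∀ N : ℕ, 1 ≤ N → ∀ m : ℕ,
  m0 ≤ m → ({n : ℕ | 1 ≤ n ∧ n ≤ N ∧ ∃ k : ℕ, m ≤ k ∧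
    1 / 2 * (k : ℝ) ≤ |u (n + k) - u n - k|}.ncard : ℝ) ≤ N * Real.exp (-c * m * Real.log m)

/-- exponential moments of the number of points -/
def MB (u : ℕ → ℝ) : Prop := ∀ L : ℕ, ∃ C : ℝ, ∀ N : ℕ, 1 ≤ N →
  (1 / N : ℝ) * ∫ x in (0 : ℝ)..N,
    (4 : ℝ) ^ ({n : ℕ | 1 ≤ n ∧ u n - x ∈ Set.Icc (-(L : ℝ)) L}.ncard) ≤ C

def S_MB : Prop := ∀ u : ℕ → ℝ, Sq u → LDH u → MB u

/-- from disjoint intervals to all boxes -/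
def S_ALLB : Prop := ∀ u : ℕ → ℝ, Sq u → MB u → ∀ (I : Type) (l : Filter I) (N : I → ℕ),
  Tendsto N l atTop → (∀ (k : ℕ) (a b : Fin k → ℝ), Dis a b →
    Tendsto (fun j => corO u k (N j) a b) l
      (𝓝 (∫ x in Set.univ.pi fun i => Set.Ioc (a i) (b i), sdet x))) →
  (∀ ε : ℝ, 0 < ε → ∃ M0 : ℕ, ∀ M : ℕ, M0 ≤ M → ∀ᶠ j in l,
    M * corO u 2 (N j) (fun _ => 0) (fun _ => 1 / M) ≤ ε) →
  ∀ (k : ℕ) (a b : Fin k → ℝ),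
    Tendsto (fun j => corr u k (N j) a b) l (𝓝 (∫ x in Set.Icc a b, sdet x))

/-- limits exist along subsequences -/
def S_COMP : Prop := ∀ u : ℕ → ℝ, Sq u → MB u → ∀ N : ℕ → ℕ, Tendsto N atTop atTop →
  ∃ φ : ℕ → ℕ, StrictMono φ ∧ ∃ m : Mom, IsLim atTop u (fun j => N (φ j)) m

/-- the sine process is strongly Rayleigh, for intervals -/
def S_SINE : Prop := SRm fun _ a b => ∫ x in Set.univ.pi fun i => Set.Ioc (a i) (b i), sdet x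

end Pool.Agent.Y748.SR
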