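import Pool.Agent.Y748.SR.Fin2
import Pool.Agent.Y587.SR.Sqz
import Pool.Agent.Y434.SR.MF
import Pool.Agent.Y77.SR.Gr
import Pool.Agent.Y421.SR.NcBd
import Pool.Agent.Y658.SR.Toep
import Pool.Agent.Y658.SR.Poi
import Pool.Agent.Y421.SR.Trap
import Pool.Agent.Y141.SR.MG
import Pool.Agent.Y445.SR.Grid
import Pool.Agent.Y576.SR.Eval
import Pool.Agent.Y606.SR.Pair2
import Pool.Agent.Y447.SR.Dya
import Pool.Agent.Y447.SR4.Box
import Pool.Agent.Y758.SR.MB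
import Pool.Agent.Y51.SR4.Comp
import Pool.Agent.Y73.SR.Sine

/-!
Project SR, part 4: all steps.
-/

open Finset Filter Topology MeasureTheory

set_option autoImplicit false

namespace Pool.Agent.Y748.SR

theorem a_DYA : S_DYA := Pool.Agent.Y447.SR.t_DYA
theorem a_SQZ : S_SQZ := Pool.Agent.Y587.SR.t_SQZ
theorem a_CO : S_CO := Pool.Agent.Y434.SR.t_CO
theorem a_MF : S_MF := Pool.Agent.Y434.SR.t_MF
theorem a_GR : S_GR := Pool.Agent.Y77.SR.t_GR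
theorem a_GPD : S_GPD := Pool.Agent.Y77.SR.t_GPD a_PSD a_GR
theorem a_NC : S_NC := Pool.Agent.Y421.SR.t_NC
theorem a_BD : S_BD := Pool.Agent.Y421.SR.t_BD a_RAY a_NC
theorem a_POI : S_POI := Pool.Agent.Y658.SR.t_POI
theorem a_TOEP : S_TOEP := Pool.Agent.Y658.SR.t_TOEP a_POI
theorem a_TRAP : S_TRAP := Pool.Agent.Y421.SR.t_TRAP
theorem a_MG : S_MG := Pool.Agent.Y141.SR.t_MG a_TAIL a_TENT a_BLK2 a_DYA
theorem a_GRID : S_GRID := Pool.Agent.Y445.SR.t_GRID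
theorem a_EVAL : S_EVAL := Pool.Agent.Y576.SR.t_EVAL a_GRID a_POI
theorem a_PAIR2 : S_PAIR2 := Pool.Agent.Y606.SR.t_PAIR2 a_TRAP a_TOEP a_EVAL
theorem a_BOX : S_BOX := Pool.Agent.Y447.SR4.t_BOX
theorem a_MB : S_MB := Pool.Agent.Y758.SR.t_MB
theorem a_COMP : S_COMP := Pool.Agent.Y51.SR4.t_COMP
theorem a_SINE : S_SINE := Pool.Agent.Y73.SR.t_SINE (a_GUE a_MIN).1

/-- all steps but one -/
theorem p4 (hALLB : S_ALLB) : P4 :=
  ⟨a_CO, a_MF, a_GR, a_GPD, a_BD, a_PAIR2, a_BOX, hALLB, a_COMP, a_SINE⟩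

end Pool.Agent.Y748.SR
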