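import Mathlib

/-!
Project SR: the sine process is the only strongly Rayleigh process with its pair correlation.
Definitions, and the statements of the steps.
-/

open Finset Filter Topology MeasureTheory

set_option autoImplicit false

namespace Pool.Agent.Y748.SR

/-- `∑_{B ⊆ Y} f (C ∪ B) w^B` -/
noncomputable def PW {X : Type} [DecidableEq X] (f : Finset X → ℝ) (C Y : Finset X) (w : X → ℝ) :
    ℝ :=
  ∑ B ∈ Y.powerset, f (C ∪ B) * ∏ i ∈ B, w i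

/-- the Rayleigh inequality for the pair `i, j`, given `C`, with real weights on `Y` -/
def RayI {X : Type} [DecidableEq X] (f : Finset X → ℝ) (C Y : Finset X) (i j : X) (w : X → ℝ) :
    Prop :=
  PW f C Y w * PW f (insert i (insert j C)) Y w ≤ PW f (insert i C) Y w * PW f (insert j C) Y w

/-- all Rayleigh inequalities -/
def Ray {X : Type} [DecidableEq X] (f : Finset X → ℝ) : Prop :=
  ∀ (C Y : Finset X) (i j : X) (w : X → ℝ), i ≠ j → i ∉ C → j ∉ C → i ∉ Y → j ∉ Y →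
    Disjoint C Y → RayI f C Y i j w

/-- all Rayleigh inequalities inside the finite set `Z` -/
def RayOn {X : Type} [DecidableEq X] (Z : Finset X) (f : Finset X → ℝ) : Prop :=
  ∀ (C Y : Finset X) (i j : X) (w : X → ℝ), i ≠ j → i ∉ C → j ∉ C → i ∉ Y → j ∉ Y →
    Disjoint C Y → insert i (insert j (C ∪ Y)) ⊆ Z → RayI f C Y i j w

/-- the generating polynomials have no zeros with all variables in the upper half-plane -/
def Stable {X : Type} [DecidableEq X] (f : Finset X → ℝ) : Prop :=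
  ∀ (Y : Finset X) (z : X → ℂ), (∀ i ∈ Y, 0 < (z i).im) →
    ∑ B ∈ Y.powerset, (f B : ℂ) * ∏ i ∈ B, z i ≠ 0

/-- stable set functions satisfy the Rayleigh inequalities -/
def S_RAY : Prop := ∀ (X : Type) [DecidableEq X] (f : Finset X → ℝ), Stable f → Ray f

/-- concavity of `log ∑ f(B) z^B` at the origin -/
def S_PSD : Prop := ∀ (X : Type) [DecidableEq X] (f : Finset X → ℝ), Stable f → (∀ B, 0 ≤ f B) →
  f ∅ = 1 → ∀ (Y : Finset X) (c : X → ℝ),
    ∑ i ∈ Y, ∑ j ∈ Y.erase i, f {i, j} * (c i * c j) ≤ (∑ i ∈ Y, f {i} * c i) ^ 2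

/-- pairwise independence implies independence -/
def S_IND : Prop := ∀ (X : Type) [DecidableEq X] (f : Finset X → ℝ) (Y : Finset X), RayOn Y f →
  f ∅ = 1 → (∀ i ∈ Y, ∀ j ∈ Y, i ≠ j → f {i, j} = f {i} * f {j}) → f Y = ∏ i ∈ Y, f {i}

/-- the function of two finite sets; `Q` is present, the sites in `R` have the weights `y` -/
noncomputable def hh {X : Type} (g : Finset X → Finset ℤ → ℝ) (A : Finset X) (Q R : Finset ℤ)
    (y : ℤ → ℝ) : ℝ :=
  ∑ S ∈ R.powerset, g A (Q ∪ S) * ((∏ n ∈ S, (1 - y n)) * ∏ n ∈ R \ S, y n)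

/-- a lattice of sites indexed by `ℤ` and further sites `X` -/
structure Sys {X : Type} [DecidableEq X] (g : Finset X → Finset ℤ → ℝ) (a : X → ℤ → ℝ) :
    Prop where
  nonneg : ∀ A S, 0 ≤ g A S
  lat : ∀ S, g ∅ S = 1
  one : ∀ x S, g {x} S = 1 - ∑ n ∈ S, a x n
  apos : ∀ x n, 0 < a x n
  asum : ∀ x, HasSum (a x) 1
  ray : ∀ (Q R : Finset ℤ) (y : ℤ → ℝ), Disjoint Q R → Ray fun A => hh g A Q R y
  rat : ∀ (C : Finset X) (i : X) (Q R : Finset ℤ) (n : ℤ) (y : ℤ → ℝ), i ∉ C → Disjoint Q R →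
    n ∉ Q → n ∉ R →
    hh g C Q R y * hh g (insert i C) (insert n Q) R y ≤
      hh g (insert i C) Q R y * hh g C (insert n Q) R y

/-- the inequalities `ray` and `rat` for sites `p x`, `q n` of a Rayleigh function -/
def S_HH : Prop := ∀ (X I : Type) [DecidableEq X] [DecidableEq I] (r : Finset I → ℝ) (p : X → I)
    (q : ℤ → I), Ray r → Function.Injective p → Function.Injective q → (∀ x n, p x ≠ q n) →
  (∀ (Q R : Finset ℤ) (y : ℤ → ℝ), Disjoint Q R →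
    Ray fun A => hh (fun A S => r (A.image p ∪ S.image q)) A Q R y) ∧
  ∀ (C : Finset X) (i : X) (Q R : Finset ℤ) (n : ℤ) (y : ℤ → ℝ), i ∉ C → Disjoint Q R →
    n ∉ Q → n ∉ R →
    hh (fun A S => r (A.image p ∪ S.image q)) C Q R y *
        hh (fun A S => r (A.image p ∪ S.image q)) (insert i C) (insert n Q) R y ≤
      hh (fun A S => r (A.image p ∪ S.image q)) (insert i C) Q R y *
        hh (fun A S => r (A.image p ∪ S.image q)) C (insert n Q) R y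

/-- independent lattice sites, and one more site -/
def S_ONE : Prop := ∀ (I : Type) [DecidableEq I] (r : Finset I → ℝ) (q : ℤ → I), Ray r →
  Function.Injective q → r ∅ = 1 → (∀ i, r {i} = 1) → (∀ m n, m ≠ n → r {q m, q n} = 1) →
  (∀ S : Finset ℤ, r (S.image q) = 1) ∧
  ∀ (x : I) (a : ℤ → ℝ), (∀ n, x ≠ q n) → (∀ n, r {x, q n} = 1 - a n) →
    ∀ S : Finset ℤ, r (insert x (S.image q)) = 1 - ∑ n ∈ S, a n

/-- `g A S` is the total mass `e` of the sets `T` (of `|A|` holes) disjoint from `S` -/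
structure Hol {X : Type} (g : Finset X → Finset ℤ → ℝ) (A : Finset X) (e : Finset ℤ → ℝ) :
    Prop where
  nonneg : ∀ T, 0 ≤ e T
  supp : ∀ T, T.card ≠ A.card → e T = 0
  sum : ∀ S : Finset ℤ, HasSum (fun T : Finset ℤ => if Disjoint T S then e T else 0) (g A S)

def S_HOLH : Prop := ∀ (X : Type) (g : Finset X → Finset ℤ → ℝ) (A : Finset X)
    (e : Finset ℤ → ℝ), Hol g A e → ∀ (Q R : Finset ℤ) (y : ℤ → ℝ), Disjoint Q R →
  HasSum (fun T : Finset ℤ => if Disjoint T Q then e T * ∏ n ∈ T ∩ R, y n else 0)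
    (hh g A Q R y)

/-- the limit of the polynomials when all sites outside `T` become present -/
def S_LIM : Prop := ∀ (X : Type) (g : Finset X → Finset ℤ → ℝ) (A : Finset X)
    (e : Finset ℤ → ℝ), Hol g A e → ∀ (T : Finset ℤ) (y : ℤ → ℝ),
  Tendsto (fun N : ℕ => hh g A (Finset.Icc (-(N : ℤ)) N \ T) T y) atTop
    (𝓝 (∑ T1 ∈ T.powerset, e T1 * ∏ n ∈ T1, y n))

/-- positivity outside the unit cube -/
def S_POS : Prop := ∀ (X : Type) [DecidableEq X] (g : Finset X → Finset ℤ → ℝ) (a : X → ℤ → ℝ),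
  Sys g a → ∀ (C : Finset X) (i : X), i ∉ C →
  (∀ (Q R : Finset ℤ) (y : ℤ → ℝ), Disjoint Q R → (∀ n, 0 < y n) → 0 < hh g C Q R y) →
  ∀ (Q R : Finset ℤ) (y : ℤ → ℝ), Disjoint Q R → (∀ n, 0 ≤ y n) →
    0 ≤ hh g (insert i C) Q R y

/-- coefficients of a polynomial of degree at most one in each variable -/
def S_COEF : Prop := ∀ (F : Finset ℤ → ℝ) (R : Finset ℤ), ∃ c : Finset ℤ → ℝ,
  (∀ y : ℤ → ℝ, ∑ S ∈ R.powerset, F S * ((∏ n ∈ S, (1 - y n)) * ∏ n ∈ R \ S, y n) =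
    ∑ T ∈ R.powerset, c T * ∏ n ∈ T, y n) ∧
  ((∀ y : ℤ → ℝ, (∀ n, 0 ≤ y n) → 0 ≤ ∑ T ∈ R.powerset, c T * ∏ n ∈ T, y n) →
    ∀ T ∈ R.powerset, 0 ≤ c T)

/-- homogeneity from growth -/
def S_GROW : Prop := ∀ (c : Finset ℤ → ℝ) (R : Finset ℤ) (k : ℕ),
  (∀ T ∈ R.powerset, ∃ K : ℝ, ∀ t : ℝ, 0 < t →
    0 ≤ ∑ T1 ∈ T.powerset, c T1 * t ^ T1.card ∧ ∑ T1 ∈ T.powerset, c T1 * t ^ T1.card ≤ K * t ^ k) →
  ∀ T ∈ R.powerset, T.card ≠ k → c T = 0

/-- the main step -/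
def S_STEP : Prop := ∀ (X : Type) [DecidableEq X] (g : Finset X → Finset ℤ → ℝ)
    (a : X → ℤ → ℝ), Sys g a → ∀ (B : Finset X) (i j : X), i ≠ j → i ∉ B → j ∉ B →
  ∀ e0 e1 e2 : Finset ℤ → ℝ, Hol g B e0 → Hol g (insert i B) e1 → Hol g (insert j B) e2 →
    (∀ T : Finset ℤ, T.card = B.card → 0 < e0 T) →
    (∀ T : Finset ℤ, T.card = B.card + 1 → 0 < e1 T) →
    (∀ T : Finset ℤ, T.card = B.card + 1 → 0 < e2 T) →
    ∃ e, Hol g (insert i (insert j B)) e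

/-- the masses at a point where the sites of `A` are pairwise independent -/
def S_VST : Prop := ∀ (X : Type) [DecidableEq X] (g : Finset X → Finset ℤ → ℝ)
    (a : X → ℤ → ℝ), Sys g a → ∀ (A : Finset X) (e : Finset X → Finset ℤ → ℝ),
  (∀ B, B ⊆ A → Hol g B (e B)) → ∀ (T : Finset ℤ) (y : ℤ → ℝ), T.card = A.card →
  (∀ x ∈ A, ∀ x' ∈ A, x ≠ x' → ∑ T1 ∈ T.powerset, e {x, x'} T1 * ∏ n ∈ T1, y n =
    (∑ n ∈ T, a x n * y n) * ∑ n ∈ T, a x' n * y n) →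
  e A T * ∏ n ∈ T, y n = ∏ x ∈ A, ∑ n ∈ T, a x n * y n

/-- the masses of two sites -/
def S_PAIR : Prop := ∀ (X : Type) [DecidableEq X] (g : Finset X → Finset ℤ → ℝ)
    (a : X → ℤ → ℝ), Sys g a → ∀ (x x' : X), x ≠ x' → ∀ (s : ℝ) (v : ℤ → ℝ), s ≠ 0 →
  (∀ n, v n ≠ 0) → (∀ n, v n ^ 2 = a x n * a x' n) → g {x, x'} ∅ = 1 - s ^ 2 →
  (∀ n, g {x, x'} {n} = 1 - a x n - a x' n - s ^ 2 + 2 * s * v n) →
  ∀ e, Hol g {x, x'} e → ∀ m n, m ≠ n →
    e {m, n} = a x m * a x' n + a x n * a x' m - 2 * v m * v n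

/-- three sites -/
def S_3PT : Prop := ∀ (X : Type) [DecidableEq X] (f : Finset X → ℝ), Ray f → f ∅ = 1 →
  (∀ i, f {i} = 1) → ∀ i j k : X, i ≠ j → i ≠ k → j ≠ k →
    (f {i, j, k} - (f {i, j} + f {i, k} + f {j, k} - 2)) ^ 2 ≤
      4 * ((1 - f {i, j}) * (1 - f {i, k}) * (1 - f {j, k}))

/-- two holes -/
def S_SUM2 : Prop := ∀ (X : Type) (g : Finset X → Finset ℤ → ℝ) (A : Finset X)
    (e : Finset ℤ → ℝ), Hol g A e →
  HasSum (fun n : ℤ => g A ∅ - g A {n}) (A.card * g A ∅)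

/-- the sine kernel -/
noncomputable def sn (u : ℝ) : ℝ := Real.sinc (Real.pi * u)

/-- the difference is not an integer -/
def NI (x y : ℝ) : Prop := ∀ n : ℤ, x - y ≠ n

/-- the double induction on the distances -/
def S_DI : Prop := ∀ τ : ℝ → ℝ → ℝ → ℝ, (∀ x y z, τ x y z = τ y x z) →
  (∀ x y z, τ x y z = τ x z y) →
  (∀ x y z, NI x y → NI y z → NI x z → |τ x y z| ≤ 2 * |sn (x - y) * sn (y - z) * sn (x - z)|) →
  (∀ x y z, NI x y → NI y z → NI x z →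
    HasSum (fun n : ℤ => τ x y (z + n)) (2 * sn (x - y) ^ 2)) →
  ∀ x y z, NI x y → NI y z → NI x z → τ x y z = 2 * (sn (x - y) * sn (y - z) * sn (x - z))

/-- the lattice sums -/
def S_LAT : Prop := ∀ x y s : ℝ, NI x s → NI y s →
  HasSum (fun n : ℤ => sn (x - (s + n)) * sn (y - (s + n))) (sn (x - y))

/-- the special weights -/
def S_LAG : Prop := ∀ (A : Finset ℝ) (s : ℝ) (T : Finset ℤ), A.card = T.card → A.Nonempty →
  (∀ x ∈ A, NI x s) → ∃ y : ℤ → ℝ, (∀ n ∈ T, y n ≠ 0) ∧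
    (∀ x ∈ A, ∀ x' ∈ A, x ≠ x' → ∑ n ∈ T, y n * (sn (x - (s + n)) * sn (x' - (s + n))) = 0) ∧
    ∀ x ∈ A, ∑ n ∈ T, y n * sn (x - (s + n)) ^ 2 ≠ 0

/-- principal minors -/
def S_MIN : Prop := ∀ (Y : Finset ℝ) (K : ℝ → ℝ → ℂ) (z : ℝ → ℂ),
  Matrix.det (1 + Matrix.of fun i j : Y => z i * K i j) =
    ∑ B ∈ Y.powerset, Matrix.det (Matrix.of fun i j : B => K i j) * ∏ i ∈ B, z i

/-- the correlation functions of the sine process as a function of finite sets -/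
noncomputable def gue (B : Finset ℝ) : ℝ :=
  Matrix.det (Matrix.of fun i j : B => sn ((i : ℝ) - j))

/-- the sine process is strongly Rayleigh -/
def S_GUE : Prop := S_MIN → Stable gue ∧ ∀ B, 0 ≤ gue B

end Pool.Agent.Y748.SR
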