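import Pool.Agent.Y748.SR.Stm5
import Pool.Agent.Y748.Main

/-!
Project SR: Montgomery's theorem in the dyadic blocks, for the zeros of zeta.
-/

open Finset Filter Topology MeasureTheory

set_option autoImplicit false

namespace Pool.Agent.Y748.SR

open SG (ord NZ)
open Pool.Agent.Results.MP_103a5c_nt.BohrSetPairs

theorem tfn_test {R : ℝ → ℝ} {κ : ℝ} (h : TFn R κ) : TestFn R κ :=
  ⟨h.cont, h.even, h.supp, h.decay⟩

theorem mt_eq {R : ℝ → ℝ} {κ : ℝ} (h : TFn R κ) : mt R = mont R := by
  unfold mt mont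
  congr 1
  have hc : Continuous fun α : ℝ => |α| * R α := continuous_abs.mul h.cont
  rw [← intervalIntegral.integral_add_adjacent_intervals (a := (-1 : ℝ)) (b := 0) (c := 1)
    (hc.intervalIntegrable _ _) (hc.intervalIntegrable _ _)]
  have h1 : ∫ α in (-1 : ℝ)..0, |α| * R α = ∫ α in (0 : ℝ)..1, |α| * R α := by
    have := intervalIntegral.integral_comp_neg (a := (0 : ℝ)) (b := 1) (fun α : ℝ => |α| * R α)
    rw [neg_zero] at this
    rw [← this]
    refine intervalIntegral.integral_congr fun α _ => ?_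
    simp only [abs_neg, h.even]
  have h2 : ∫ α in (0 : ℝ)..1, |α| * R α = ∫ α in (0 : ℝ)..1, α * R α := by
    refine intervalIntegral.integral_congr fun α hα => ?_
    rw [Set.uIcc_of_le zero_le_one] at hα
    simp only [abs_of_nonneg hα.1]
  rw [h1, h2]
  ring

theorem AP_one : AlmostPeriodic (fun _ : ℝ => (1 : ℝ)) := by
  intro ε hε
  refine ⟨{0}, fun _ => 1, fun t => ?_⟩
  simp [hε.le]

theorem mean_one : HasMean (fun _ : ℝ => (1 : ℝ)) 1 := by
  unfold HasMean
  refine tendsto_const_nhds.congr' ?_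
  filter_upwards [eventually_gt_atTop 0] with X hX
  simp [hX.ne']

theorem blk (RH : RiemannHypothesis) (hsq : Sq fun n => nrm (ord n)) : Blk ord NZ := by
  refine ⟨good RH, ?_, hsq⟩
  intro R κ h0 h1 hR ε hε
  obtain ⟨T0, hT0⟩ := dyadic RH (tfn_test hR) h0 h1 (TH803TW.APm_of_mean AP_one mean_one) hε
  refine ⟨max T0 1, fun T hT => ?_⟩
  have h2 := hT0 T ((le_max_left _ _).trans hT)
  have hT1 : 1 ≤ T := (le_max_right _ _).trans hT
  rw [pair_block RH hT1, N_block RH hT1 (by linarith)] at h2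
  rw [mt_eq hR]
  simpa [rr, r] using h2

end Pool.Agent.Y748.SR
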