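import Pool.Agent.Y748.SR.Top
import Pool.Agent.Y748.SR.Zt
import Pool.Agent.Y748.SR.Stm6

/-!
Project SR: the sine process satisfies the hypothesis; subsequences.
-/

open Finset Filter Topology MeasureTheory

set_option autoImplicit false

namespace Pool.Agent.Y748.SR

/-- from the set function to the polynomials -/
theorem stable_sum {f : Finset ℝ → ℝ} (hf : Stable f) {ρ : ∀ k : ℕ, (Fin k → ℝ) → ℝ}
    (hρ : ∀ (k : ℕ) (x : Fin k → ℝ), StrictMono x → f (univ.image x) = ρ k x) (n : ℕ)
    (x : Fin n → ℝ) (hx : StrictMono x) (z : Fin n → ℂ) (hz : ∀ i, 0 < (z i).im) :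
    ∑ S : Finset (Fin n), (ρ S.card (fun i => x (S.orderEmbOfFin rfl i)) : ℂ) * ∏ i ∈ S, z i ≠
      0 := by
  classical
  set z' : ℝ → ℂ := fun y => if h : ∃ i, x i = y then z h.choose else Complex.I with hz'
  have hzx : ∀ i, z' (x i) = z i := by
    intro i
    have h : ∃ j, x j = x i := ⟨i, rfl⟩
    simp only [hz', dif_pos h]
    exact congrArg z (hx.injective h.choose_spec)
  have key := hf (univ.image x) z' (by
    intro y hy
    obtain ⟨i, _, rfl⟩ := Finset.mem_image.mp hy
    rw [hzx]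
    exact hz i)
  intro h0
  apply key
  rw [← h0]
  symm
  refine Finset.sum_bij (fun S _ => S.image x) ?_ ?_ ?_ ?_
  · intro S _
    rw [Finset.mem_powerset]
    exact Finset.image_subset_image (Finset.subset_univ S)
  · intro S _ S' _ hSS
    exact Finset.image_injective hx.injective hSS
  · intro B hB
    refine ⟨univ.filter fun i => x i ∈ B, Finset.mem_univ _, ?_⟩
    ext y
    simp only [Finset.mem_image, Finset.mem_filter, Finset.mem_univ, true_and]
    constructor
    · rintro ⟨i, hi, rfl⟩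
      exact hi
    · intro hy
      obtain ⟨i, _, rfl⟩ := Finset.mem_image.mp (Finset.mem_powerset.mp hB hy)
      exact ⟨i, hy, rfl⟩
  · intro S _
    have h1 : f (S.image x) = ρ S.card (fun i => x (S.orderEmbOfFin rfl i)) := by
      have h2 : S.image x = univ.image fun i => x (S.orderEmbOfFin rfl i) := by
        ext y
        simp only [Finset.mem_image, Finset.mem_univ, true_and]
        constructor
        · rintro ⟨i, hi, rfl⟩
          have h3 : i ∈ Set.range (S.orderEmbOfFin rfl) := by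
            rw [Finset.range_orderEmbOfFin]; exact hi
          obtain ⟨j, rfl⟩ := h3
          exact ⟨j, rfl⟩
        · rintro ⟨j, rfl⟩
          exact ⟨_, Finset.orderEmbOfFin_mem S rfl j, rfl⟩
      rw [h2]
      exact hρ _ _ (hx.comp (S.orderEmbOfFin rfl).strictMono)
    rw [h1, Finset.prod_image (fun i _ j _ hij => hx.injective hij)]
    simp only [hzx]

/-- the sine process is strongly Rayleigh -/
theorem sine_stable (n : ℕ) (x : Fin n → ℝ) (hx : StrictMono x) (z : Fin n → ℂ)
    (hz : ∀ i, 0 < (z i).im) :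
    ∑ S : Finset (Fin n), (sdet (fun i => x (S.orderEmbOfFin rfl i)) : ℂ) * ∏ i ∈ S, z i ≠ 0 :=
  stable_sum (a_GUE a_MIN).1 (ρ := fun _ => sdet) (fun _ x hx => gue_image x hx.injective) n x hx
    z hz

theorem cor_of (hAUTO : S_AUTO) {u : ℕ → ℝ} (hu : Sq u) {I : Type} {l : Filter I} [l.NeBot]
    {N : I → ℕ} {ρ : ∀ k : ℕ, (Fin k → ℝ) → ℝ} (hc : ∀ k, Continuous (ρ k))
    (hs : ∀ (k : ℕ) (x : Fin k → ℝ), StrictMono x → ∀ z : Fin k → ℂ, (∀ i, 0 < (z i).im) →
      ∑ S : Finset (Fin k), (ρ S.card (fun i => x (S.orderEmbOfFin rfl i)) : ℂ) *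
        ∏ i ∈ S, z i ≠ 0) (H : LimC l u N ρ) : Cor ρ where
  cont := hc
  nonneg := fun k => (hAUTO u hu I l inferInstance N H.tend k (ρ k) (hc k) (H.lim k)).1
  symm := fun k => (hAUTO u hu I l inferInstance N H.tend k (ρ k) (hc k) (H.lim k)).2.1
  stat := fun k => (hAUTO u hu I l inferInstance N H.tend k (ρ k) (hc k) (H.lim k)).2.2
  sr := hs

end Pool.Agent.Y748.SR
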