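import Pool.Agent.Y748.SR.UniR
import Pool.Agent.Y748.SR.Rho2

/-!
Project SR: the set functions of the grids converge to the one of the sine process.
-/

open Finset Filter Topology MeasureTheory

set_option autoImplicit false

namespace Pool.Agent.Y748.SR

theorem PW_image {X X' : Type} [DecidableEq X] [DecidableEq X'] (φ : X → X') (f : Finset X' → ℝ)
    (C Y : Finset X) (w : X → ℝ) (w' : X' → ℝ) (hφ : Set.InjOn φ Y)
    (hw : ∀ x ∈ Y, w' (φ x) = w x) :
    PW (fun B => f (B.image φ)) C Y w = PW f (C.image φ) (Y.image φ) w' := by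
  unfold PW
  refine Finset.sum_bij (fun B _ => B.image φ) ?_ ?_ ?_ ?_
  · intro B hB
    rw [Finset.mem_powerset] at hB ⊢
    exact Finset.image_subset_image hB
  · intro B hB B' hB' h
    rw [Finset.mem_powerset] at hB hB'
    ext x
    constructor
    · intro hx
      have h1 : φ x ∈ B'.image φ := h ▸ Finset.mem_image_of_mem φ hx
      obtain ⟨y, hy, hxy⟩ := Finset.mem_image.mp h1
      rw [← hφ (hB' hy) (hB hx) hxy]
      exact hy
    · intro hx
      have h1 : φ x ∈ B.image φ := h ▸ Finset.mem_image_of_mem φ hx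
      obtain ⟨y, hy, hxy⟩ := Finset.mem_image.mp h1
      rw [← hφ (hB hy) (hB' hx) hxy]
      exact hy
  · intro B hB
    rw [Finset.mem_powerset] at hB
    refine ⟨Y.filter fun x => φ x ∈ B, Finset.mem_powerset.mpr (Finset.filter_subset _ _), ?_⟩
    ext y
    simp only [Finset.mem_image, Finset.mem_filter]
    constructor
    · rintro ⟨x, ⟨_, hx⟩, rfl⟩
      exact hx
    · intro hy
      obtain ⟨x, hx, rfl⟩ := Finset.mem_image.mp (hB hy)
      exact ⟨x, ⟨hx, hy⟩, rfl⟩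
  · intro B hB
    rw [Finset.mem_powerset] at hB
    have h1 : ∏ i ∈ B.image φ, w' i = ∏ i ∈ B, w i := by
      rw [Finset.prod_image (fun x hx y hy h => hφ (hB hx) (hB hy) h)]
      exact Finset.prod_congr rfl fun x hx => hw x (hB hx)
    rw [h1]
    simp only [Finset.image_union]

theorem ray_image {X X' : Type} [DecidableEq X] [DecidableEq X'] (φ : X → X')
    (f : Finset X' → ℝ) (hf : Ray f) (C Y : Finset X) (i j : X) (w : X → ℝ) (hij : i ≠ j)
    (hiC : i ∉ C) (hjC : j ∉ C) (hiY : i ∉ Y) (hjY : j ∉ Y) (hCY : Disjoint C Y)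
    (hφ : Set.InjOn φ (insert i (insert j (C ∪ Y)) : Finset X)) :
    RayI (fun B => f (B.image φ)) C Y i j w := by
  classical
  set Z : Finset X := insert i (insert j (C ∪ Y)) with hZ
  have hiZ : i ∈ Z := by simp [hZ]
  have hjZ : j ∈ Z := by simp [hZ]
  have hCZ : ∀ x ∈ C, x ∈ Z := fun x hx => by simp [hZ, hx]
  have hYZ : ∀ x ∈ Y, x ∈ Z := fun x hx => by simp [hZ, hx]
  have hφY : Set.InjOn φ Y := hφ.mono (fun x hx => hYZ x hx)
  obtain ⟨w', hw'⟩ : ∃ w' : X' → ℝ, ∀ x ∈ Y, w' (φ x) = w x := by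
    refine ⟨fun y => if h : ∃ x ∈ Y, φ x = y then w h.choose else 0, fun x hx => ?_⟩
    have h : ∃ y ∈ Y, φ y = φ x := ⟨x, hx, rfl⟩
    simp only [dif_pos h]
    congr 1
    exact hφY h.choose_spec.1 hx h.choose_spec.2
  have hne : ∀ x ∈ Z, ∀ y ∈ Z, x ≠ y → φ x ≠ φ y := fun x hx y hy hxy h => hxy (hφ hx hy h)
  have key := hf (C.image φ) (Y.image φ) (φ i) (φ j) w' (hne i hiZ j hjZ hij) ?_ ?_ ?_ ?_ ?_
  · unfold RayI at key ⊢
    rw [PW_image φ f _ Y w w' hφY hw', PW_image φ f _ Y w w' hφY hw',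
      PW_image φ f _ Y w w' hφY hw', PW_image φ f _ Y w w' hφY hw']
    simp only [Finset.image_insert]
    exact key
  · intro h
    obtain ⟨x, hx, hxi⟩ := Finset.mem_image.mp h
    exact hne x (hCZ x hx) i hiZ (fun h => hiC (h ▸ hx)) hxi
  · intro h
    obtain ⟨x, hx, hxi⟩ := Finset.mem_image.mp h
    exact hne x (hCZ x hx) j hjZ (fun h => hjC (h ▸ hx)) hxi
  · intro h
    obtain ⟨x, hx, hxi⟩ := Finset.mem_image.mp h
    exact hne x (hYZ x hx) i hiZ (fun h => hiY (h ▸ hx)) hxi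
  · intro h
    obtain ⟨x, hx, hxi⟩ := Finset.mem_image.mp h
    exact hne x (hYZ x hx) j hjZ (fun h => hjY (h ▸ hx)) hxi
  · rw [Finset.disjoint_left]
    intro y hy hy'
    obtain ⟨x, hx, rfl⟩ := Finset.mem_image.mp hy
    obtain ⟨x', hx', hxx⟩ := Finset.mem_image.mp hy'
    refine hne x' (hYZ x' hx') x (hCZ x hx) ?_ hxx
    rintro rfl
    exact (Finset.disjoint_left.mp hCY) hx hx'

/-- different points are in different cells, eventually -/
theorem floor_inj (Z : Finset ℝ) :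
    ∀ᶠ M : ℕ in atTop, Set.InjOn (fun x : ℝ => ⌊(M : ℝ) * x⌋) Z := by
  have h1 : ∀ x ∈ Z, ∀ y ∈ Z, ∀ᶠ M : ℕ in atTop, ⌊(M : ℝ) * x⌋ = ⌊(M : ℝ) * y⌋ → x = y := by
    intro x _ y _
    by_cases hxy : x = y
    · exact Eventually.of_forall fun M _ => hxy
    · have h2 : ∀ᶠ M : ℕ in atTop, 1 ≤ (M : ℝ) * |x - y| := by
        have h3 : Tendsto (fun M : ℕ => (M : ℝ) * |x - y|) atTop atTop :=
          tendsto_natCast_atTop_atTop.atTop_mul_const (abs_pos.mpr (sub_ne_zero.mpr hxy))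
        exact h3.eventually_ge_atTop 1
      filter_upwards [h2] with M hM he
      exfalso
      have h4 := Int.abs_sub_lt_one_of_floor_eq_floor he
      rw [← mul_sub, abs_mul, Nat.abs_cast] at h4
      linarith
  have h2 : ∀ᶠ M : ℕ in atTop, ∀ x ∈ Z, ∀ y ∈ Z, ⌊(M : ℝ) * x⌋ = ⌊(M : ℝ) * y⌋ → x = y := by
    rw [Filter.eventually_all_finset]
    intro x hx
    rw [Filter.eventually_all_finset]
    exact h1 x hx
  filter_upwards [h2] with M hM x hx y hy hxy
  exact hM x hx y hy hxy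

theorem floor_tendsto (x : ℝ) : Tendsto (fun M : ℕ => ((⌊(M : ℝ) * x⌋ : ℤ) : ℝ) / M) atTop (𝓝 x) := by
  have h1 : Tendsto (fun M : ℕ => x - 1 / (M : ℝ)) atTop (𝓝 x) := by
    have := (tendsto_const_nhds (x := x)).sub (tendsto_one_div_atTop_nhds_zero_nat (𝕜 := ℝ))
    simpa using this
  refine tendsto_of_tendsto_of_tendsto_of_le_of_le' h1 tendsto_const_nhds ?_ ?_
  · filter_upwards [eventually_ge_atTop 1] with M hM
    have hM0 : (0 : ℝ) < M := by exact_mod_cast hM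
    rw [le_div_iff₀ hM0, sub_mul, one_div, inv_mul_cancel₀ hM0.ne']
    have := Int.sub_one_lt_floor ((M : ℝ) * x)
    linarith
  · filter_upwards [eventually_ge_atTop 1] with M hM
    have hM0 : (0 : ℝ) < M := by exact_mod_cast hM
    rw [div_le_iff₀ hM0]
    have := Int.floor_le ((M : ℝ) * x)
    linarith

theorem grid_tendsto (hRAY : S_RAY) (hHH : S_HH) (hONE : S_ONE) (hLAT : S_LAT) (hSTEP : S_STEP)
    (h3 : S_3PT) (hSUM2 : S_SUM2) (hDI : S_DI) (hPAIR : S_PAIR) (hVST : S_VST) (hLAG : S_LAG)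
    (hGUE : S_GUE) (hMIN : S_MIN) {m : Mom}
    (hst : ∀ M : ℕ, 1 ≤ M → Stable (grid m M) ∧ (∀ B, 0 ≤ grid m M B) ∧ grid m M ∅ = 1 ∧
      (∀ i, grid m M {i} = 1) ∧
      ∀ (B : Finset ℤ) (t : ℤ), grid m M (B.image fun i => i + t) = grid m M B)
    (hle : ∀ M : ℕ, 1 ≤ M → ∀ B, grid m M B ≤ 1)
    (hG : ∀ (k : ℕ → ℤ) (v : ℝ), Tendsto (fun M : ℕ => (k M : ℝ) / M) atTop (𝓝 v) →
      Tendsto (fun M : ℕ => Gs m M (k M)) atTop (𝓝 (sn v ^ 2)))
    (B : Finset ℝ) (hB : Gen B) :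
    Tendsto (fun M : ℕ => grid m M (B.image fun x => ⌊(M : ℝ) * x⌋)) atTop (𝓝 (gue B)) := by
  classical
  rw [tendsto_iff_ultrafilter]
  intro U hU
  set F : ℕ → Finset ℝ → ℝ := fun M B => grid m M (B.image fun x => ⌊(M : ℝ) * x⌋) with hF
  have hM1 : ∀ᶠ M : ℕ in (U : Filter ℕ), 1 ≤ M := hU (eventually_ge_atTop 1)
  have hlim : ∀ B : Finset ℝ, ∃ y : ℝ, Tendsto (fun M => F M B) U (𝓝 y) := by
    intro B
    have h1 : ∀ᶠ M : ℕ in (U : Filter ℕ), F M B ∈ Set.Icc (0 : ℝ) 1 := by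
      filter_upwards [hM1] with M hM
      exact ⟨(hst M hM).2.1 _, hle M hM _⟩
    obtain ⟨y, _, hy⟩ := isCompact_Icc.ultrafilter_le_nhds (U.map fun M => F M B)
      (by rw [le_principal_iff]; exact h1)
    exact ⟨y, hy⟩
  choose r hr using hlim
  have hPW : ∀ (C Y : Finset ℝ) (w : ℝ → ℝ),
      Tendsto (fun M => PW (F M) C Y w) U (𝓝 (PW r C Y w)) := by
    intro C Y w
    unfold PW
    exact tendsto_finset_sum _ fun B _ => (hr (C ∪ B)).mul tendsto_const_nhds
  have hpr : R.Pr r := by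
    refine ⟨?_, fun B => ?_, ?_, fun x => ?_, fun x y hxy => ?_⟩
    · intro C Y i j w hij hiC hjC hiY hjY hCY
      unfold RayI
      refine le_of_tendsto_of_tendsto ((hPW _ _ _).mul (hPW _ _ _)) ((hPW _ _ _).mul (hPW _ _ _)) ?_
      filter_upwards [hM1, hU (floor_inj (insert i (insert j (C ∪ Y))))] with M hM hinj
      exact ray_image (fun x : ℝ => ⌊(M : ℝ) * x⌋) (grid m M) (hRAY ℤ _ (hst M hM).1) C Y i j w hij
        hiC hjC hiY hjY hCY hinj
    · refine ge_of_tendsto (hr B) ?_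
      filter_upwards [hM1] with M hM
      exact (hst M hM).2.1 _
    · refine tendsto_nhds_unique (hr ∅) ?_
      refine tendsto_const_nhds.congr' ?_
      filter_upwards [hM1] with M hM
      simp only [hF, Finset.image_empty]
      exact (hst M hM).2.2.1.symm
    · refine tendsto_nhds_unique (hr {x}) ?_
      refine tendsto_const_nhds.congr' ?_
      filter_upwards [hM1] with M hM
      simp only [hF, Finset.image_singleton]
      exact ((hst M hM).2.2.2.1 _).symm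
    · refine tendsto_nhds_unique (hr {x, y}) ?_
      have h1 : Tendsto (fun M : ℕ => ((⌊(M : ℝ) * y⌋ - ⌊(M : ℝ) * x⌋ : ℤ) : ℝ) / M) atTop
          (𝓝 (y - x)) := by
        refine ((floor_tendsto y).sub (floor_tendsto x)).congr fun M => ?_
        push_cast
        ring
      have h2 := (hG (fun M => ⌊(M : ℝ) * y⌋ - ⌊(M : ℝ) * x⌋) (y - x) h1).mono_left hU
      have h3 := (tendsto_const_nhds (x := (1 : ℝ)) (f := (U : Filter ℕ))).sub h2
      have e1 : sn (y - x) ^ 2 = sn (x - y) ^ 2 := by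
        rw [← neg_sub x y, sn_neg]
      rw [e1] at h3
      refine h3.congr' ?_
      filter_upwards [hM1, hU (floor_inj {x, y})] with M hM hinj
      have hne : ⌊(M : ℝ) * y⌋ - ⌊(M : ℝ) * x⌋ ≠ 0 := by
        intro h0
        apply hxy
        exact hinj (by simp) (by simp) (sub_eq_zero.mp h0).symm
      simp only [hF, Gs, if_neg hne]
      have h4 := (hst M hM).2.2.2.2 {0, ⌊(M : ℝ) * y⌋ - ⌊(M : ℝ) * x⌋} ⌊(M : ℝ) * x⌋
      rw [← h4]
      simp [Finset.image_insert]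
  have hgue : R.Pr gue := by
    have hg := pr_gue hGUE hMIN
    exact ⟨hRAY ℝ gue hg.st, hg.nn, hg.em, hg.one, hg.two⟩
  have := R.uni_good hHH hONE hLAT hSTEP h3 hSUM2 hDI hPAIR hVST hLAG hpr hgue B hB
  rw [← this]
  exact hr B

end Pool.Agent.Y748.SR
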