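import Pool.Agent.Y748.SR.Fin
import Pool.Agent.Y748.SR.UL

/-!
Project SR, part 4: assembly.
-/

open Finset Filter Topology MeasureTheory

set_option autoImplicit false

namespace Pool.Agent.Y748.SR

/-- the steps of part 4 -/
structure P4 : Prop where
  CO : S_CO
  MF : S_MF
  GR : S_GR
  GPD : S_GPD
  BD : S_BD
  PAIR2 : S_PAIR2
  BOX : S_BOX
  ALLB : S_ALLB
  COMP : S_COMP
  SINE : S_SINE

/-- one filter -/
theorem main4 (h : P4) {u : ℕ → ℝ} (hu : Sq u) (hMg : Mg u) (hMB : MB u) {I : Type}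
    {l : Filter I} (hl : l.NeBot) {N : I → ℕ} {m : Mom} (H : IsLim l u N m) (hm : SRm m) :
    (∀ (k : ℕ) (a b : Fin k → ℝ), Dis a b →
      m k a b = ∫ x in Set.univ.pi fun i => Set.Ioc (a i) (b i), sdet x) ∧
    ∀ (k : ℕ) (a b : Fin k → ℝ),
      Tendsto (fun j => corr u k (N j) a b) l (𝓝 (∫ x in Set.Icc a b, sdet x)) := by
  have hMF := h.MF u hu I l N m hl H
  have hPD := fun M hM => h.GPD m hMF hm M hM
  obtain ⟨hc, hG⟩ := h.PAIR2 u hu hMg I l N m hl H hPD
  have hle : ∀ M : ℕ, 1 ≤ M → ∀ B, grid m M B ≤ 1 := by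
    intro M hM B
    have hM0 : (0 : ℝ) < M := by exact_mod_cast hM
    unfold grid
    have h1 : Dis (fun i => ((B.orderEmbOfFin rfl i : ℤ) : ℝ) / M)
        (fun i => (((B.orderEmbOfFin rfl i : ℤ) : ℝ) + 1) / M) := by
      constructor
      · intro i
        exact div_lt_div_of_pos_right (by linarith) hM0
      · intro i j hij
        apply div_le_div_of_nonneg_right _ hM0.le
        have h2 : B.orderEmbOfFin rfl i < B.orderEmbOfFin rfl j :=
          (B.orderEmbOfFin rfl).strictMono hij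
        have h3 : B.orderEmbOfFin rfl i + 1 ≤ B.orderEmbOfFin rfl j := h2
        exact_mod_cast h3
    have h2 := h.BD m hMF hm B.card _ _ h1
    have h3 : ∏ i : Fin B.card, ((((B.orderEmbOfFin rfl i : ℤ) : ℝ) + 1) / M -
        ((B.orderEmbOfFin rfl i : ℤ) : ℝ) / M) = (1 / (M : ℝ)) ^ B.card := by
      rw [Finset.prod_congr rfl (g := fun _ => 1 / (M : ℝ)) (fun i _ => by ring)]
      simp
    rw [h3] at h2
    calc (M : ℝ) ^ B.card * _ ≤ (M : ℝ) ^ B.card * (1 / (M : ℝ)) ^ B.card :=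
          mul_le_mul_of_nonneg_left h2 (by positivity)
      _ = 1 := by rw [← mul_pow, mul_one_div_cancel hM0.ne', one_pow]
  have hgrid := grid_tendsto a_RAY a_HH a_ONE a_LAT a_STEP a_3PT a_SUM2 a_DI a_PAIR a_VST a_LAG
    a_GUE a_MIN (m := m) (fun M hM => h.GR m hMF hm M hM) hle hG
  have hbox := h.BOX m hMF (h.BD m hMF hm) hgrid
  refine ⟨hbox, ?_⟩
  refine h.ALLB u hu hMB I l N H.tend (fun k a b hab => ?_) hc
  have := H.lim k a b hab
  rwa [hbox k a b hab] at this

/-- box integrals over closed and half-open boxes -/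
theorem int_Icc {k : ℕ} (a b : Fin k → ℝ) :
    ∫ x in Set.univ.pi fun i => Set.Ioc (a i) (b i), sdet x = ∫ x in Set.Icc a b, sdet x := by
  rw [volume_pi]
  exact setIntegral_congr_set Measure.univ_pi_Ioc_ae_eq_Icc

/-- the GUE hypothesis for the sequence `u` -/
def GUEh (u : ℕ → ℝ) : Prop := ∀ (k : ℕ) (a b : Fin k → ℝ),
  Tendsto (fun N => corO u k N a b) atTop (𝓝 (∫ x in Set.Icc a b, sdet x))

theorem iff4 (h : P4) {u : ℕ → ℝ} (hu : Sq u) (hMg : Mg u) (hMB : MB u) :
    GUEh u ↔ ∀ (N : ℕ → ℕ) (m : Mom), IsLim atTop u N m → SRm m := by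
  constructor
  · intro hG N m H
    have hm : ∀ (k : ℕ) (a b : Fin k → ℝ), Dis a b →
        m k a b = ∫ x in Set.univ.pi fun i => Set.Ioc (a i) (b i), sdet x := by
      intro k a b hab
      rw [int_Icc]
      exact tendsto_nhds_unique (H.lim k a b hab) ((hG k a b).comp H.tend)
    intro n a b hab z hz
    have h1 := h.SINE n a b hab z hz
    intro h0
    apply h1
    rw [← h0]
    refine Finset.sum_congr rfl fun S _ => ?_
    rw [hm S.card (fun i => a (S.orderEmbOfFin rfl i)) (fun i => b (S.orderEmbOfFin rfl i))]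
    refine ⟨fun i => hab.1 _, fun i j hij => hab.2 _ _ ((S.orderEmbOfFin rfl).strictMono hij)⟩
  · intro hSR k a b
    refine tendsto_of_subseq_tendsto fun ns hns => ?_
    obtain ⟨φ, hφ, m, H⟩ := h.COMP u hu hMB ns hns
    refine ⟨φ, ?_⟩
    have h1 := (main4 h hu hMg hMB inferInstance H (hSR _ m H)).2 k a b
    refine h1.congr fun j => ?_
    exact h.CO u hu k _ a b

end Pool.Agent.Y748.SR
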