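import Pool.Agent.Y748.SR.Uni
import Pool.Agent.Y748.SR.Stm4

/-!
Project SR: from the correlation functions to the set functions.
-/

open Finset Filter Topology MeasureTheory

set_option autoImplicit false

namespace Pool.Agent.Y748.SR

/-- correlation functions of a stationary strongly Rayleigh process -/
structure Cor (ρ : ∀ k : ℕ, (Fin k → ℝ) → ℝ) : Prop where
  cont : ∀ k, Continuous (ρ k)
  nonneg : ∀ k x, 0 ≤ ρ k x
  symm : ∀ (k : ℕ) (σ : Equiv.Perm (Fin k)) (x : Fin k → ℝ), ρ k (x ∘ σ) = ρ k x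
  stat : ∀ (k : ℕ) (x : Fin k → ℝ) (t : ℝ), ρ k (fun i => x i + t) = ρ k x
  sr : ∀ (k : ℕ) (x : Fin k → ℝ), StrictMono x → ∀ z : Fin k → ℂ, (∀ i, 0 < (z i).im) →
    ∑ S : Finset (Fin k), (ρ S.card (fun i => x (S.orderEmbOfFin rfl i)) : ℂ) * ∏ i ∈ S, z i ≠ 0

/-- the correlation functions as a set function -/
noncomputable def rset (ρ : ∀ k : ℕ, (Fin k → ℝ) → ℝ) (B : Finset ℝ) : ℝ :=
  ρ B.card (B.orderEmbOfFin rfl)

variable {ρ : ∀ k : ℕ, (Fin k → ℝ) → ℝ}

theorem rset_eq {B : Finset ℝ} {k : ℕ} (h : B.card = k) : rset ρ B = ρ k (B.orderEmbOfFin h) := by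
  subst h; rfl

theorem rset_image {k : ℕ} (x : Fin k → ℝ) (hx : StrictMono x) :
    rset ρ (univ.image x) = ρ k x := by
  have hc : (univ.image x).card = k := by
    rw [Finset.card_image_of_injective _ hx.injective, Finset.card_univ, Fintype.card_fin]
  rw [rset_eq hc]
  congr 1
  exact (Finset.orderEmbOfFin_unique hc (fun i => Finset.mem_image_of_mem _ (Finset.mem_univ i))
    hx).symm

theorem stable_rset (h : Cor ρ) : Stable (rset ρ) := by
  intro Y z hz
  obtain ⟨x, hx⟩ : ∃ x : Fin Y.card → ℝ, x = ⇑(Y.orderEmbOfFin rfl) := ⟨_, rfl⟩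
  have hxm : StrictMono x := by rw [hx]; exact (Y.orderEmbOfFin rfl).strictMono
  have hxY : ∀ i, x i ∈ Y := fun i => by rw [hx]; exact Finset.orderEmbOfFin_mem Y rfl i
  have key := h.sr Y.card x hxm (fun i => z (x i)) (fun i => hz _ (hxY i))
  intro h0
  apply key
  rw [← h0]
  refine Finset.sum_bij (fun S _ => S.image x) ?_ ?_ ?_ ?_
  · intro S _
    rw [Finset.mem_powerset]
    intro y hy
    obtain ⟨i, _, rfl⟩ := Finset.mem_image.mp hy
    exact hxY i
  · intro S _ S' _ hSS
    exact Finset.image_injective hxm.injective hSS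
  · intro B hB
    refine ⟨univ.filter fun i => x i ∈ B, Finset.mem_univ _, ?_⟩
    ext y
    simp only [Finset.mem_image, Finset.mem_filter, Finset.mem_univ, true_and]
    constructor
    · rintro ⟨i, hi, rfl⟩
      exact hi
    · intro hy
      have h1 : y ∈ Set.range x := by
        rw [hx, Finset.range_orderEmbOfFin]
        exact Finset.mem_powerset.mp hB hy
      obtain ⟨i, rfl⟩ := h1
      exact ⟨i, hy, rfl⟩
  · intro S _
    have h1 : rset ρ (S.image x) = ρ S.card (fun i => x (S.orderEmbOfFin rfl i)) := by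
      have h2 : S.image x = univ.image fun i => x (S.orderEmbOfFin rfl i) := by
        ext y
        simp only [Finset.mem_image, Finset.mem_univ, true_and]
        constructor
        · rintro ⟨i, hi, rfl⟩
          have h3 : i ∈ Set.range (S.orderEmbOfFin rfl) := by
            rw [Finset.range_orderEmbOfFin]; exact hi
          obtain ⟨j, rfl⟩ := h3
          exact ⟨j, rfl⟩
        · rintro ⟨j, rfl⟩
          exact ⟨_, Finset.orderEmbOfFin_mem S rfl j, rfl⟩
      rw [h2]
      exact rset_image _ (hxm.comp (S.orderEmbOfFin rfl).strictMono)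
    rw [h1, Finset.prod_image (fun i _ j _ hij => hxm.injective hij)]

/-! ### the pair correlation function -/

/-- the pair correlation function -/
noncomputable def hf (ρ : ∀ k : ℕ, (Fin k → ℝ) → ℝ) (v : ℝ) : ℝ := ρ 2 ![v, 0]

theorem rho2 (h : Cor ρ) (x : Fin 2 → ℝ) : ρ 2 x = hf ρ (x 0 - x 1) := by
  unfold hf
  rw [← h.stat 2 ![x 0 - x 1, 0] (x 1)]
  congr 1
  ext i
  fin_cases i <;> simp

theorem hf_cont (h : Cor ρ) : Continuous (hf ρ) := by
  unfold hf
  refine (h.cont 2).comp ?_
  refine continuous_pi fun i => ?_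
  fin_cases i
  · exact continuous_id
  · exact continuous_const

theorem hf_even (h : Cor ρ) (v : ℝ) : hf ρ (-v) = hf ρ v := by
  have h1 : hf ρ (-v) = ρ 2 ![0, v] := by
    rw [rho2 h]; simp
  have h2 : ρ 2 (![0, v] ∘ (Equiv.swap 0 1 : Equiv.Perm (Fin 2))) = ρ 2 ![0, v] := h.symm 2 _ _
  rw [h1, ← h2]
  unfold hf
  congr 1
  ext i
  fin_cases i <;> simp

theorem rset_pair (h : Cor ρ) {x y : ℝ} (hxy : x ≠ y) : rset ρ {x, y} = hf ρ (x - y) := by
  have key : ∀ x y : ℝ, x < y → rset ρ {x, y} = hf ρ (x - y) := by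
    intro x y hlt
    have h1 : ({x, y} : Finset ℝ) = univ.image ![x, y] := by
      ext u
      simp only [Finset.mem_insert, Finset.mem_singleton, Finset.mem_image, Finset.mem_univ,
        true_and, Fin.exists_fin_two]
      simp [eq_comm]
    have hm : StrictMono ![x, y] := by
      intro i j hij
      fin_cases i <;> fin_cases j <;> simp_all
    rw [h1, rset_image _ hm, rho2 h]
    simp
  rcases lt_or_gt_of_ne hxy with hlt | hlt
  · exact key x y hlt
  · rw [Finset.pair_comm, key y x hlt, ← hf_even h]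
    congr 1
    ring

theorem rset_single (x : ℝ) : rset ρ {x} = ρ 1 (fun _ => x) := by
  have h1 : ({x} : Finset ℝ) = univ.image (fun _ : Fin 1 => x) := by
    ext u
    simp [eq_comm]
  have hm : StrictMono (fun _ : Fin 1 => x) := by
    intro i j hij
    exact absurd hij (by simp [Subsingleton.elim i j])
  rw [h1, rset_image _ hm]

theorem rset_empty : rset ρ ∅ = ρ 0 (fun i => i.elim0) := by
  have h1 : (∅ : Finset ℝ) = univ.image (fun i : Fin 0 => (i.elim0 : ℝ)) := by
    ext u
    simp
  have hm : StrictMono (fun i : Fin 0 => (i.elim0 : ℝ)) := by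
    intro i
    exact i.elim0
  rw [h1, rset_image _ hm]

end Pool.Agent.Y748.SR
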