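import Pool.Agent.Y748.SR.Stm3

/-!
Project SR: the main step `S_STEP` from its parts.
-/

open Finset Filter Topology MeasureTheory

set_option autoImplicit false

namespace Pool.Agent.Y748.SR

theorem t_STEP (hM : S_MONO) (hA : S_STEPA) (hB : S_STEPB) : S_STEP := by
  intro X _ g a hs B i j hij hiB hjB e0 e1 e2 h0 h1 h2 p0 p1 p2
  have hH : StH g a B i j e0 e1 e2 := ⟨hs, hij, hiB, hjB, h0, h1, h2, p0, p1, p2⟩
  obtain ⟨e, he0, hes, hel⟩ := hA X g a B i j e0 e1 e2 hH
  have hmono := hM X g a B i j e0 e1 e2 hH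
  have htight := hB X g a B i j e0 e1 e2 hH
  set A : Finset X := insert i (insert j B) with hAdef
  have hcard : A.card = B.card + 2 := by
    rw [hAdef, Finset.card_insert_of_notMem, Finset.card_insert_of_notMem hjB]
    simp only [Finset.mem_insert, not_or]
    exact ⟨hij, hiB⟩
  refine ⟨e, he0, ?_, ?_⟩
  · intro T hT
    exact hes T (by rw [← hcard]; exact hT)
  intro S
  have hsub : ∀ S : Finset ℤ, ∃ N0 : ℕ, ∀ N : ℕ, N0 ≤ N → S ⊆ Finset.Icc (-(N : ℤ)) N := by
    intro S
    refine ⟨S.sup Int.natAbs, fun N hN n hn => ?_⟩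
    have h1 : n.natAbs ≤ N := (Finset.le_sup (f := Int.natAbs) hn).trans hN
    rw [Finset.mem_Icc]
    omega
  have hnn : ∀ T : Finset ℤ, 0 ≤ (if Disjoint T S then e T else 0) := by
    intro T
    split_ifs
    · exact he0 T
    · exact le_refl _
  -- upper bound
  have hup : ∀ T : Finset ℤ, Disjoint T S → ∑ T1 ∈ T.powerset, e T1 ≤ g A S := by
    intro T hT
    refine le_of_tendsto (hel T) ?_
    obtain ⟨N0, hN0⟩ := hsub S
    filter_upwards [eventually_ge_atTop N0] with N hN
    have h3 : S ∪ (Finset.Icc (-(N : ℤ)) N \ T) = Finset.Icc (-(N : ℤ)) N \ T := by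
      apply Finset.union_eq_right.mpr
      intro n hn
      rw [Finset.mem_sdiff]
      exact ⟨hN0 N hN hn, fun h => (Finset.disjoint_left.mp hT) h hn⟩
    have := hmono S (Finset.Icc (-(N : ℤ)) N \ T)
    rwa [h3] at this
  -- lower bound
  have hlow : ∀ ε : ℝ, 0 < ε → ∃ T : Finset ℤ, Disjoint T S ∧
      g A S - ε ≤ ∑ T1 ∈ T.powerset, e T1 := by
    intro ε hε
    obtain ⟨T0, hST0, hT0⟩ := htight S ε hε
    refine ⟨T0 \ S, Finset.sdiff_disjoint, ?_⟩
    refine ge_of_tendsto (hel (T0 \ S)) ?_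
    obtain ⟨N0, hN0⟩ := hsub S
    filter_upwards [eventually_ge_atTop N0] with N hN
    have h3 : Finset.Icc (-(N : ℤ)) N \ (T0 \ S) = S ∪ (Finset.Icc (-(N : ℤ)) N \ T0) := by
      ext n
      have := @hN0 N hN n
      have := @hST0 n
      simp only [Finset.mem_sdiff, Finset.mem_union]
      tauto
    rw [h3]
    have := hT0 (Finset.Icc (-(N : ℤ)) N \ T0) Finset.sdiff_disjoint
    linarith
  rw [HasSum, SummationFilter.unconditional_filter]
  have hb : ∀ F : Finset (Finset ℤ), ∑ T ∈ F, (if Disjoint T S then e T else 0) ≤ g A S := by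
    intro F
    refine le_trans ?_ (hup ((F.biUnion id) \ S) Finset.sdiff_disjoint)
    rw [← Finset.sum_filter]
    refine Finset.sum_le_sum_of_subset_of_nonneg ?_ (fun T _ _ => he0 T)
    intro T hT
    rw [Finset.mem_filter] at hT
    rw [Finset.mem_powerset]
    intro n hn
    rw [Finset.mem_sdiff, Finset.mem_biUnion]
    exact ⟨⟨T, hT.1, hn⟩, fun h => (Finset.disjoint_left.mp hT.2) hn h⟩
  rw [Metric.tendsto_nhds]
  intro ε hε
  obtain ⟨T, hTS, hT⟩ := hlow (ε / 2) (by positivity)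
  filter_upwards [eventually_ge_atTop T.powerset] with F hF
  have h4 : ∑ T1 ∈ T.powerset, e T1 ≤ ∑ T ∈ F, (if Disjoint T S then e T else 0) := by
    calc ∑ T1 ∈ T.powerset, e T1 = ∑ T1 ∈ T.powerset, (if Disjoint T1 S then e T1 else 0) := by
          refine Finset.sum_congr rfl fun T1 hT1 => ?_
          rw [if_pos]
          exact Finset.disjoint_of_subset_left (Finset.mem_powerset.mp hT1) hTS
      _ ≤ _ := Finset.sum_le_sum_of_subset_of_nonneg hF (fun T _ _ => hnn T)
  have h5 := hb F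
  rw [Real.dist_eq, abs_lt]
  constructor <;> linarith

end Pool.Agent.Y748.SR
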