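import Pool.Agent.Y748.SR.Stm

/-!
Project SR: the parts of the main step `S_STEP`.
-/

open Finset Filter Topology MeasureTheory

set_option autoImplicit false

namespace Pool.Agent.Y748.SR

/-- the hypotheses of the main step -/
structure StH {X : Type} [DecidableEq X] (g : Finset X → Finset ℤ → ℝ) (a : X → ℤ → ℝ)
    (B : Finset X) (i j : X) (e0 e1 e2 : Finset ℤ → ℝ) : Prop where
  sys : Sys g a
  ij : i ≠ j
  iB : i ∉ B
  jB : j ∉ B
  h0 : Hol g B e0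
  h1 : Hol g (insert i B) e1
  h2 : Hol g (insert j B) e2
  p0 : ∀ T : Finset ℤ, T.card = B.card → 0 < e0 T
  p1 : ∀ T : Finset ℤ, T.card = B.card + 1 → 0 < e1 T
  p2 : ∀ T : Finset ℤ, T.card = B.card + 1 → 0 < e2 T

/-- monotonicity -/
def S_MONO : Prop := ∀ (X : Type) [DecidableEq X] (g : Finset X → Finset ℤ → ℝ)
    (a : X → ℤ → ℝ) (B : Finset X) (i j : X) (e0 e1 e2 : Finset ℤ → ℝ),
  StH g a B i j e0 e1 e2 → ∀ S R : Finset ℤ,
    g (insert i (insert j B)) (S ∪ R) ≤ g (insert i (insert j B)) S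

/-- the lattice polynomials of the larger set are nonnegative -/
def S_STP : Prop := ∀ (X : Type) [DecidableEq X] (g : Finset X → Finset ℤ → ℝ)
    (a : X → ℤ → ℝ) (B : Finset X) (i j : X) (e0 e1 e2 : Finset ℤ → ℝ),
  StH g a B i j e0 e1 e2 → ∀ (Q R : Finset ℤ) (y : ℤ → ℝ), Disjoint Q R → (∀ n, 0 ≤ y n) →
    0 ≤ hh g (insert i (insert j B)) Q R y

/-- the masses of the larger set -/
def S_STEPA : Prop := ∀ (X : Type) [DecidableEq X] (g : Finset X → Finset ℤ → ℝ)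
    (a : X → ℤ → ℝ) (B : Finset X) (i j : X) (e0 e1 e2 : Finset ℤ → ℝ),
  StH g a B i j e0 e1 e2 → ∃ e : Finset ℤ → ℝ, (∀ T, 0 ≤ e T) ∧
    (∀ T : Finset ℤ, T.card ≠ B.card + 2 → e T = 0) ∧
    ∀ T : Finset ℤ, Tendsto (fun N : ℕ =>
      g (insert i (insert j B)) (Finset.Icc (-(N : ℤ)) N \ T)) atTop
        (𝓝 (∑ T1 ∈ T.powerset, e T1))

/-- tightness -/
def S_STEPB : Prop := ∀ (X : Type) [DecidableEq X] (g : Finset X → Finset ℤ → ℝ)
    (a : X → ℤ → ℝ) (B : Finset X) (i j : X) (e0 e1 e2 : Finset ℤ → ℝ),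
  StH g a B i j e0 e1 e2 → ∀ (S : Finset ℤ) (ε : ℝ), 0 < ε → ∃ T0 : Finset ℤ, S ⊆ T0 ∧
    ∀ R : Finset ℤ, Disjoint R T0 →
      g (insert i (insert j B)) S - g (insert i (insert j B)) (S ∪ R) ≤ ε

end Pool.Agent.Y748.SR
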