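import Pool.Agent.Y748.Zeta
import Pool.Agent.Y748.SR.Stm4

/-!
Project SR: the zeros of zeta.
-/

open Finset Filter Topology MeasureTheory

set_option autoImplicit false

namespace Pool.Agent.Y748.SR

/-- no zeros at small height on the critical line -/
def S_LOW : Prop := ∀ t : ℝ, 0 < t → t ≤ 1 → riemannZeta (1 / 2 + t * Complex.I) ≠ 0

/-- the normalised ordinates -/
def S_SQZ : Prop := RiemannHypothesis → S_LOW → Sq fun n => nrm (SG.ord n)

end Pool.Agent.Y748.SR
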