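import Pool.Agent.Y748.SR.Step
import Pool.Agent.Y748.SR.Rho2
import Pool.Agent.Y932.SR.Rayl
import Pool.Agent.Y708.SR.Psd
import Pool.Agent.Y86.SR.Ind
import Pool.Agent.Y658.SR.Hh
import Pool.Agent.Y658.SR.Pos
import Pool.Agent.Y658.SR.StepA
import Pool.Agent.Y923.SR.Holh
import Pool.Agent.Y923.SR.One
import Pool.Agent.Y290.SR.COEF
import Pool.Agent.Y664.SR.Grow
import Pool.Agent.Y545.SR.Vst
import Pool.Agent.Y545.SR.StepB
import Pool.Agent.Y38.SR.Pair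
import Pool.Agent.Y38.SR.Sum2
import Pool.Agent.Y73.SR.Gue
import Pool.Agent.Y73.SR.Three
import Pool.Agent.Y474.SR.BochC
import Pool.Agent.Y474.SR.DI
import Pool.Agent.Y297.SR.Lat
import Pool.Agent.Y665.SR.Lag
import Pool.Agent.Y796.SR.Min
import Pool.Agent.Y153.SR.Det01
import Pool.Agent.Y37.SR.Hole
import Pool.Agent.Y884.SR.Gapx
import Pool.Agent.Y255.SR.Conv
import Pool.Agent.Y185.SR.Ereg
import Pool.Agent.Y948.SR.ML
import Pool.Agent.Y51.SR.Onep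
import Pool.Agent.Y51.SR.Pd
import Pool.Agent.Y421.SR.Inv
import Pool.Agent.Y705.SR.Mono
import Pool.Agent.Y447.SR.Tail
import Pool.Agent.Y488.SR.Tent
import Pool.Agent.Y587.SR.Blk2
import Pool.Agent.Y514.SR.Mont

/-!
Project SR: assembly.
-/

open Finset Filter Topology MeasureTheory

set_option autoImplicit false

namespace Pool.Agent.Y748.SR

theorem a_RAY : S_RAY := Pool.Agent.Y932.SR.t_RAY
theorem a_PSD : S_PSD := Pool.Agent.Y708.SR.t_PSD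
theorem a_IND : S_IND := Pool.Agent.Y86.SR.t_IND
theorem a_HH : S_HH := Pool.Agent.Y658.SR.t_HH
theorem a_POS : S_POS := Pool.Agent.Y658.SR.t_POS
theorem a_HOLH : S_HOLH := Pool.Agent.Y923.SR.t_HOLH
theorem a_LIM : S_LIM := Pool.Agent.Y923.SR.t_LIM a_HOLH
theorem a_ONE : S_ONE := Pool.Agent.Y923.SR.t_ONE a_IND
theorem a_COEF : S_COEF := Pool.Agent.Y290.SR.t_COEF
theorem a_GROW : S_GROW := Pool.Agent.Y664.SR.t_GROW
theorem a_VST : S_VST := Pool.Agent.Y545.SR.t_VST a_IND a_LIM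
theorem a_MONO : S_MONO := Pool.Agent.Y705.SR.t_MONO a_HOLH
theorem a_STP : S_STP := Pool.Agent.Y705.SR.t_STP a_HOLH a_POS
theorem a_STEPA : S_STEPA :=
  Pool.Agent.Y658.SR.t_STEPA a_HOLH a_LIM a_COEF a_GROW a_MONO a_STP
theorem a_STEPB : S_STEPB := Pool.Agent.Y545.SR.t_STEPB a_HOLH a_COEF a_STP
theorem a_STEP : S_STEP := t_STEP a_MONO a_STEPA a_STEPB
theorem a_PAIR : S_PAIR := Pool.Agent.Y38.SR.t_PAIR
theorem a_SUM2 : S_SUM2 := Pool.Agent.Y38.SR.t_SUM2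
theorem a_GUE : S_GUE := Pool.Agent.Y73.SR.t_GUE
theorem a_3PT : S_3PT := Pool.Agent.Y73.SR.t_3PT
theorem a_BOCH : S_BOCH := Pool.Agent.Y474.SR.Boch.t_BOCH
theorem a_LAT : S_LAT := Pool.Agent.Y297.SR.t_LAT
theorem a_DI : S_DI := Pool.Agent.Y474.SR.t_DI a_LAT
theorem a_LAG : S_LAG := Pool.Agent.Y665.SR.t_LAG
theorem a_MIN : S_MIN := Pool.Agent.Y796.SR.t_MIN
theorem a_DET01 : S_DET01 := Pool.Agent.Y153.SR.t_DET01
theorem a_HOLE : S_HOLE := Pool.Agent.Y37.SR.t_HOLE a_DET01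
theorem a_GAPX : S_GAPX := Pool.Agent.Y884.SR.t_GAPX
theorem a_CONV : S_CONV := Pool.Agent.Y255.SR.t_CONV
theorem a_EREG : S_EREG := Pool.Agent.Y185.SR.t_EREG
theorem a_ML : S_ML := Pool.Agent.Y948.SRML.t_ML
theorem a_ONEP : S_ONEP := Pool.Agent.Y51.SR.t_ONEP
theorem a_PD : S_PD := Pool.Agent.Y51.SR.t_PD
theorem a_INV : S_INV := Pool.Agent.Y421.SR.t_INV
theorem a_TAIL : S_TAIL := Pool.Agent.Y447.SR.t_TAIL
theorem a_TENT : S_TENT := Pool.Agent.Y488.SR.t_TENT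
theorem a_BLK2 : S_BLK2 := Pool.Agent.Y587.SR.t_BLK2 a_TAIL a_TENT

/-- the set function is the one of the sine process, at generic points -/
theorem uni {r : Finset ℝ → ℝ} (h : Pr r) (B : Finset ℝ)
    (hB : ∀ x ∈ B, ∀ x' ∈ B, x ≠ x' → NI x x') : r B = gue B :=
  uni_good a_RAY a_HH a_ONE a_LAT a_STEP a_3PT a_SUM2 a_DI a_PAIR a_VST a_LAG h
    (pr_gue a_GUE a_MIN) B hB

/-- the correlation functions are those of the sine process -/
theorem rho_det (hDYA : S_DYA) {γ : ℕ → ℝ} {NZ : ℝ → ℕ} (hB : Blk γ NZ) {I : Type} {l : Filter I}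
    [l.NeBot] {N : I → ℕ} {ρ : ∀ k : ℕ, (Fin k → ℝ) → ℝ} (h : Cor ρ)
    (H : LimC l (fun n => nrm (γ n)) N ρ) (k : ℕ) (x : Fin k → ℝ) : ρ k x = sdet x :=
  rho_eq h (fun B hB' => uni (pr_rset a_PSD a_PD a_INV a_BOCH
    (Pool.Agent.Y514.SR.t_MONT a_ML a_BLK2 hDYA) a_ONEP hB h H) B hB') k x

/-- the law of the gaps from the correlations -/
theorem gaps {u : ℕ → ℝ} (hu : Sq u) {I : Type} {l : Filter I} {N : I → ℕ}
    (H : LimC l u N (fun _ => sdet)) (a b : ℝ) (ha : 0 ≤ a) (hab : a < b) :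
    Tendsto (fun j => ({n : ℕ | 1 ≤ n ∧ n ≤ N j ∧ a < u (n + 1) - u n ∧
      u (n + 1) - u n ≤ b}.ncard : ℝ) / N j) l (𝓝 (∫ s in a..b, deriv (deriv EG) s)) := by
  obtain ⟨F, hF, hEF, hF0⟩ := a_EREG
  refine a_CONV (fun n => u (n + 1) - u n) (fun n hn => sub_nonneg.mpr (hu.mono n hn)) I l N
    H.tend EG F hF hEF hF0 ?_ a b ha hab
  intro s hs
  have h1 := a_HOLE u hu I l N H.tend H.lim s hs
  have h2 := (a_GAPX u hu s hs).comp H.tend
  have h3 := h2.add h1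
  rw [zero_add] at h3
  refine h3.congr fun j => ?_
  simp only [Function.comp]
  ring

end Pool.Agent.Y748.SR
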