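import Pool.Agent.Y748.SR.Stm3

/-!
Project SR: uniqueness of the strongly Rayleigh process with the pair correlation of the sine
process, at generic points.
-/

open Finset Filter Topology MeasureTheory

set_option autoImplicit false

namespace Pool.Agent.Y748.SR

/-! ### the sine kernel -/

theorem sn_neg (u : ℝ) : sn (-u) = sn u := by
  unfold sn; rw [mul_neg, Real.sinc_neg]

theorem sn_zero : sn 0 = 1 := by
  unfold sn; rw [mul_zero, Real.sinc_zero]

theorem sn_int (n : ℤ) (hn : n ≠ 0) : sn n = 0 := by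
  unfold sn
  have h : Real.pi * (n : ℝ) ≠ 0 := mul_ne_zero Real.pi_ne_zero (by exact_mod_cast hn)
  rw [Real.sinc_of_ne_zero h, mul_comm, Real.sin_int_mul_pi, zero_div]

theorem sn_ne (u : ℝ) (h : ∀ n : ℤ, u ≠ n) : sn u ≠ 0 := by
  unfold sn
  have h0 : u ≠ 0 := by simpa using h 0
  have h1 : Real.pi * u ≠ 0 := mul_ne_zero Real.pi_ne_zero h0
  rw [Real.sinc_of_ne_zero h1]
  refine div_ne_zero ?_ h1
  intro h2
  obtain ⟨n, hn⟩ := Real.sin_eq_zero_iff.mp h2
  apply h n
  have : Real.pi * (n : ℝ) = Real.pi * u := by rw [mul_comm]; exact hn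
  exact (mul_left_cancel₀ Real.pi_ne_zero this).symm

theorem NI.symm {x y : ℝ} (h : NI x y) : NI y x := by
  intro n hn
  apply h (-n)
  push_cast
  linarith

theorem NI.ne {x y : ℝ} (h : NI x y) : x ≠ y := by
  intro hxy
  apply h 0
  rw [hxy]; simp

theorem NI.add {x s : ℝ} (h : NI x s) (n : ℤ) : NI x (s + n) := by
  intro m hm
  apply h (m + n)
  push_cast
  linarith

theorem NI.sn_ne {x y : ℝ} (h : NI x y) : sn (x - y) ≠ 0 := SR.sn_ne _ h

/-! ### the setting -/

/-- a nonnegative stable set function with the correlations of order one and two of the sine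
process -/
structure Pr (r : Finset ℝ → ℝ) : Prop where
  st : Stable r
  nn : ∀ B, 0 ≤ r B
  em : r ∅ = 1
  one : ∀ x, r {x} = 1
  two : ∀ x y, x ≠ y → r {x, y} = 1 - sn (x - y) ^ 2

/-- the sites off the lattice `s + ℤ` -/
abbrev XS (s : ℝ) : Type := {x : ℝ // NI x s}

noncomputable def gg (r : Finset ℝ → ℝ) (s : ℝ) (A : Finset (XS s)) (S : Finset ℤ) : ℝ :=
  r (A.image (fun x : XS s => (x : ℝ)) ∪ S.image fun n : ℤ => s + n)

noncomputable def aa (s : ℝ) (x : XS s) (n : ℤ) : ℝ := sn ((x : ℝ) - (s + n)) ^ 2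

theorem sys_gg (hRAY : S_RAY) (hHH : S_HH) (hONE : S_ONE) (hLAT : S_LAT) {r : Finset ℝ → ℝ}
    (h : Pr r) (s : ℝ) : Sys (gg r s) (aa s) := by
  have hray : Ray r := hRAY ℝ r h.st
  have hp : Function.Injective (fun x : XS s => (x : ℝ)) := Subtype.val_injective
  have hq : Function.Injective (fun n : ℤ => s + (n : ℝ)) := by
    intro m n hmn
    have : (m : ℝ) = n := by simpa using hmn
    exact_mod_cast this
  have hpq : ∀ (x : XS s) (n : ℤ), (x : ℝ) ≠ s + (n : ℝ) := fun x n => (x.2.add n).ne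
  have hO := hONE ℝ r (fun n : ℤ => s + (n : ℝ)) hray hq h.em h.one (by
    intro m n hmn
    have hne : s + (m : ℝ) ≠ s + (n : ℝ) := fun h => hmn (hq h)
    rw [h.two _ _ hne]
    have : s + (m : ℝ) - (s + n) = ((m - n : ℤ) : ℝ) := by push_cast; ring
    rw [this, sn_int _ (sub_ne_zero.mpr hmn)]
    ring)
  have hH := hHH (XS s) ℝ r (fun x : XS s => (x : ℝ)) (fun n : ℤ => s + (n : ℝ)) hray hp hq hpq
  refine ⟨fun A S => h.nn _, fun S => ?_, fun x S => ?_, fun x n => ?_, fun x => ?_, ?_, ?_⟩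
  · have := hO.1 S
    simpa [gg] using this
  · have := hO.2 (x : ℝ) (aa s x) (fun n => hpq x n) (fun n => by
      rw [h.two _ _ (hpq x n)]; rfl) S
    simpa [gg, Finset.singleton_union] using this
  · exact lt_of_le_of_ne (sq_nonneg _) (Ne.symm (pow_ne_zero 2 (x.2.add n).sn_ne))
  · have := hLAT (x : ℝ) (x : ℝ) s x.2 x.2
    rw [sub_self, sn_zero] at this
    convert this using 2 with n
    unfold aa
    ring
  · exact hH.1
  · exact hH.2

theorem hasSum_cg {β : Type} {f g : β → ℝ} {a : ℝ} (h : ∀ b, f b = g b) (hg : HasSum g a) :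
    HasSum f a := by
  rw [show f = g from funext h]; exact hg

/-! ### the masses of at most one site -/

theorem hol_empty {s : ℝ} {g : Finset (XS s) → Finset ℤ → ℝ} {a : XS s → ℤ → ℝ} (h : Sys g a) :
    Hol g ∅ (fun T => if T = ∅ then 1 else 0) := by
  refine ⟨fun T => ?_, fun T hT => ?_, fun S => ?_⟩
  · split_ifs <;> norm_num
  · rw [if_neg]
    rintro rfl
    exact hT rfl
  · rw [h.lat S]
    convert hasSum_single (∅ : Finset ℤ) (f := fun T : Finset ℤ =>
      if Disjoint T S then (if T = ∅ then (1 : ℝ) else 0) else 0) ?_ using 1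
    · simp
    · intro T hT
      simp [hT]

theorem hol_one {s : ℝ} {g : Finset (XS s) → Finset ℤ → ℝ} {a : XS s → ℤ → ℝ} (h : Sys g a)
    (x : XS s) : Hol g {x} (fun T => if T.card = 1 then ∑ n ∈ T, a x n else 0) := by
  refine ⟨fun T => ?_, fun T hT => ?_, fun S => ?_⟩
  · split_ifs
    · exact Finset.sum_nonneg fun n _ => (h.apos x n).le
    · exact le_refl _
  · rw [if_neg]
    simpa using hT
  · rw [h.one x S]
    have hinj : Function.Injective (fun n : ℤ => ({n} : Finset ℤ)) := Finset.singleton_injective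
    refine (hinj.hasSum_iff ?_).mp ?_
    · intro T hT
      have : T.card ≠ 1 := by
        intro h1
        obtain ⟨n, rfl⟩ := Finset.card_eq_one.mp h1
        exact hT ⟨n, rfl⟩
      simp [this]
    · have h1 : HasSum (fun n : ℤ => if n ∈ S then a x n else 0) (∑ n ∈ S, a x n) := by
        have : HasSum (fun n : ℤ => if n ∈ S then a x n else 0)
            (∑ n ∈ S, if n ∈ S then a x n else 0) :=
          hasSum_sum_of_ne_finset_zero (fun n hn => if_neg hn)
        convert this using 1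
        exact (Finset.sum_congr rfl fun n hn => by rw [if_pos hn])
      have h2 := (h.asum x).sub h1
      refine hasSum_cg (fun n => ?_) h2
      simp only [Function.comp, Finset.card_singleton, if_true, Finset.sum_singleton,
        Finset.disjoint_singleton_left]
      by_cases hn : n ∈ S <;> simp [hn]

/-! ### the three-point function -/

theorem hol_pair (hSTEP : S_STEP) {s : ℝ} {g : Finset (XS s) → Finset ℤ → ℝ}
    {a : XS s → ℤ → ℝ} (h : Sys g a) (x y : XS s) (hxy : x ≠ y) : ∃ e, Hol g {x, y} e := by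
  have hx := hol_one h x
  have hy := hol_one h y
  obtain ⟨e, he⟩ := hSTEP (XS s) g a h ∅ x y hxy (by simp) (by simp) _ _ _ (hol_empty h)
    (by simpa using hx) (by simpa using hy) (by intro T hT; simp at hT; simp [hT])
    (by
      intro T hT
      have h1 : T.card = 1 := by simpa using hT
      obtain ⟨n, rfl⟩ := Finset.card_eq_one.mp h1
      simpa using h.apos x n)
    (by
      intro T hT
      have h1 : T.card = 1 := by simpa using hT
      obtain ⟨n, rfl⟩ := Finset.card_eq_one.mp h1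
      simpa using h.apos y n)
  exact ⟨e, by simpa using he⟩

theorem three (hRAY : S_RAY) (hHH : S_HH) (hONE : S_ONE) (hLAT : S_LAT) (hSTEP : S_STEP)
    (h3 : S_3PT) (hSUM2 : S_SUM2) (hDI : S_DI) {r : Finset ℝ → ℝ} (h : Pr r) :
    ∀ x y z, NI x y → NI y z → NI x z → r {x, y, z} =
      r {x, y} + r {x, z} + r {y, z} - 2 + 2 * (sn (x - y) * sn (y - z) * sn (x - z)) := by
  have key := hDI (fun x y z => r {x, y, z} - (r {x, y} + r {x, z} + r {y, z} - 2)) ?_ ?_ ?_ ?_
  · intro x y z hxy hyz hxz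
    have := key x y z hxy hyz hxz
    linarith
  · intro x y z
    have e1 : ({x, y, z} : Finset ℝ) = {y, x, z} := by ext u; simp; tauto
    have e2 : ({x, y} : Finset ℝ) = {y, x} := by ext u; simp; tauto
    simp only [e1, e2]
    ring
  · intro x y z
    have e1 : ({x, y, z} : Finset ℝ) = {x, z, y} := by ext u; simp; tauto
    have e2 : ({y, z} : Finset ℝ) = {z, y} := by ext u; simp; tauto
    simp only [e1, e2]
    ring
  · intro x y z hxy hyz hxz
    have := h3 ℝ r (hRAY ℝ r h.st) h.em h.one x y z hxy.ne hxz.ne hyz.ne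
    have e1 : 1 - r {x, y} = sn (x - y) ^ 2 := by rw [h.two _ _ hxy.ne]; ring
    have e2 : 1 - r {x, z} = sn (x - z) ^ 2 := by rw [h.two _ _ hxz.ne]; ring
    have e3 : 1 - r {y, z} = sn (y - z) ^ 2 := by rw [h.two _ _ hyz.ne]; ring
    rw [e1, e2, e3] at this
    refine abs_le_of_sq_le_sq ?_ (by positivity)
    refine this.trans (le_of_eq ?_)
    rw [mul_pow, sq_abs]
    ring
  · intro x y z hxy hyz hxz
    have hS := sys_gg hRAY hHH hONE hLAT h z
    have hne : (⟨x, hxz⟩ : XS z) ≠ ⟨y, hyz⟩ := by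
      intro he
      exact hxy.ne (congrArg Subtype.val he)
    obtain ⟨e, he⟩ := hol_pair hSTEP hS ⟨x, hxz⟩ ⟨y, hyz⟩ hne
    have h1 := hSUM2 _ _ _ e he
    have h2 := (hS.asum ⟨x, hxz⟩).add (hS.asum ⟨y, hyz⟩)
    have h3 := h2.sub h1
    have hcard : (({⟨x, hxz⟩, ⟨y, hyz⟩} : Finset (XS z)).card : ℝ) = 2 := by
      rw [Finset.card_pair hne]; norm_num
    have h0 : gg r z {⟨x, hxz⟩, ⟨y, hyz⟩} ∅ = 1 - sn (x - y) ^ 2 := by
      simp only [gg, Finset.image_insert, Finset.image_singleton, Finset.image_empty,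
        Finset.union_empty]
      exact h.two _ _ hxy.ne
    rw [hcard, h0] at h3
    have h4 : (1 : ℝ) + 1 - 2 * (1 - sn (x - y) ^ 2) = 2 * sn (x - y) ^ 2 := by ring
    rw [h4] at h3
    refine hasSum_cg (fun n => ?_) h3
    have h5 : gg r z {⟨x, hxz⟩, ⟨y, hyz⟩} {n} = r {x, y, z + n} := by
      simp only [gg, Finset.image_insert, Finset.image_singleton]
      congr 1
      ext u
      simp only [Finset.mem_union, Finset.mem_insert, Finset.mem_singleton, or_assoc]
    rw [h5]
    simp only [aa]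
    rw [h.two x y hxy.ne, h.two x (z + n) (hxz.add n).ne, h.two y (z + n) (hyz.add n).ne]
    ring

/-! ### the masses -/

/-- pairwise differences are not integers -/
def GoodA {s : ℝ} (A : Finset (XS s)) : Prop :=
  ∀ x ∈ A, ∀ x' ∈ A, x ≠ x' → NI (x : ℝ) (x' : ℝ)

theorem GoodA.mono {s : ℝ} {A B : Finset (XS s)} (h : GoodA A) (hB : B ⊆ A) : GoodA B :=
  fun x hx x' hx' hne => h x (hB hx) x' (hB hx') hne

/-- the sum over the pairs -/
theorem pair_sum (e : Finset ℤ → ℝ) (a a' v y : ℤ → ℝ)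
    (hs : ∀ T : Finset ℤ, T.card ≠ 2 → e T = 0) (hv : ∀ n, v n ^ 2 = a n * a' n)
    (he : ∀ m n, m ≠ n → e {m, n} = a m * a' n + a n * a' m - 2 * v m * v n) (T : Finset ℤ) :
    ∑ T1 ∈ T.powerset, e T1 * ∏ n ∈ T1, y n =
      (∑ n ∈ T, a n * y n) * (∑ n ∈ T, a' n * y n) - (∑ n ∈ T, v n * y n) ^ 2 := by
  induction T using Finset.induction_on with
  | empty => simp [hs ∅ (by simp)]
  | insert k T hk ih =>
    rw [Finset.sum_powerset_insert hk, ih]
    have h1 : ∑ T1 ∈ T.powerset, e (insert k T1) * ∏ n ∈ insert k T1, y n =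
        ∑ n ∈ T, (a k * a' n + a n * a' k - 2 * v k * v n) * (y k * y n) := by
      have hps : Finset.powersetCard 1 T ⊆ T.powerset := fun S hS =>
        Finset.mem_powerset.mpr (Finset.mem_powersetCard.mp hS).1
      rw [← Finset.sum_subset hps]
      · rw [Finset.powersetCard_one, Finset.sum_map]
        refine Finset.sum_congr rfl fun n hn => ?_
        have hkn : k ≠ n := fun h => hk (h ▸ hn)
        simp only [Function.Embedding.coeFn_mk]
        rw [he k n hkn, Finset.prod_pair hkn]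
      · intro T1 hT1 hT1'
        have hkT : k ∉ T1 := fun h => hk (Finset.mem_powerset.mp hT1 h)
        rw [hs, zero_mul]
        rw [Finset.card_insert_of_notMem hkT]
        intro h2
        apply hT1'
        rw [Finset.mem_powersetCard]
        exact ⟨Finset.mem_powerset.mp hT1, by omega⟩
    rw [h1, Finset.sum_insert hk, Finset.sum_insert hk, Finset.sum_insert hk]
    have h2 : ∑ n ∈ T, (a k * a' n + a n * a' k - 2 * v k * v n) * (y k * y n) =
        y k * (a k * (∑ n ∈ T, a' n * y n) + a' k * (∑ n ∈ T, a n * y n) -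
          2 * v k * (∑ n ∈ T, v n * y n)) := by
      rw [Finset.mul_sum, Finset.mul_sum, Finset.mul_sum, ← Finset.sum_add_distrib,
        ← Finset.sum_sub_distrib, Finset.mul_sum]
      refine Finset.sum_congr rfl fun n _ => ?_
      ring
    rw [h2]
    linear_combination ((y k) ^ 2) * hv k

theorem mass (hRAY : S_RAY) (hHH : S_HH) (hONE : S_ONE) (hLAT : S_LAT) (hSTEP : S_STEP)
    (h3 : S_3PT) (hSUM2 : S_SUM2) (hDI : S_DI) (hPAIR : S_PAIR) (hVST : S_VST)
    {r : Finset ℝ → ℝ} (h : Pr r) {s : ℝ} {A : Finset (XS s)} (hA : GoodA A)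
    (hol : ∀ B, B ⊆ A → ∃ e, Hol (gg r s) B e) (T : Finset ℤ) (hT : T.card = A.card) (y : ℤ → ℝ)
    (hy : ∀ x ∈ A, ∀ x' ∈ A, x ≠ x' →
      ∑ n ∈ T, y n * (sn ((x : ℝ) - (s + n)) * sn ((x' : ℝ) - (s + n))) = 0)
    (e : Finset ℤ → ℝ) (he : Hol (gg r s) A e) :
    e T * ∏ n ∈ T, y n = ∏ x ∈ A, ∑ n ∈ T, aa s x n * y n := by
  classical
  have hS := sys_gg hRAY hHH hONE hLAT h s
  set F : Finset (XS s) → Finset ℤ → ℝ := fun B =>
    if B = A then e else if hB : B ⊆ A then (hol B hB).choose else 0 with hF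
  have hFA : F A = e := by rw [hF]; simp
  have hFH : ∀ B, B ⊆ A → Hol (gg r s) B (F B) := by
    intro B hB
    rw [hF]
    by_cases hBA : B = A
    · subst hBA; simpa using he
    · simp only [if_neg hBA, dif_pos hB]
      exact (hol B hB).choose_spec
  have := hVST (XS s) (gg r s) (aa s) hS A F hFH T y hT ?_
  · rwa [hFA] at this
  intro x hx x' hx' hne
  have hNI : NI (x : ℝ) (x' : ℝ) := hA x hx x' hx' hne
  have hsub : ({x, x'} : Finset (XS s)) ⊆ A := by
    intro z hz
    rw [Finset.mem_insert, Finset.mem_singleton] at hz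
    rcases hz with rfl | rfl
    · exact hx
    · exact hx'
  have hP := hPAIR (XS s) (gg r s) (aa s) hS x x' hne (sn ((x : ℝ) - x'))
    (fun n => sn ((x : ℝ) - (s + n)) * sn ((x' : ℝ) - (s + n))) hNI.sn_ne
    (fun n => mul_ne_zero (x.2.add n).sn_ne (x'.2.add n).sn_ne)
    (fun n => by simp only [aa]; ring)
    (by
      simp only [gg, Finset.image_insert, Finset.image_singleton, Finset.image_empty,
        Finset.union_empty]
      exact h.two _ _ hNI.ne)
    (by
      intro n
      have h5 : gg r s {x, x'} {n} = r {(x : ℝ), (x' : ℝ), s + n} := by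
        simp only [gg, Finset.image_insert, Finset.image_singleton]
        congr 1
        ext u
        simp only [Finset.mem_union, Finset.mem_insert, Finset.mem_singleton, or_assoc]
      rw [h5, three hRAY hHH hONE hLAT hSTEP h3 hSUM2 hDI h _ _ _ hNI (x'.2.add n) (x.2.add n),
        h.two _ _ hNI.ne, h.two _ _ (x.2.add n).ne, h.two _ _ (x'.2.add n).ne]
      simp only [aa]
      ring)
    (F {x, x'}) (hFH _ hsub)
  have hcard : ({x, x'} : Finset (XS s)).card = 2 := Finset.card_pair hne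
  rw [pair_sum (F {x, x'}) (aa s x) (aa s x')
    (fun n => sn ((x : ℝ) - (s + n)) * sn ((x' : ℝ) - (s + n))) y
    (fun T hT => (hFH _ hsub).supp T (by rw [hcard]; exact hT))
    (fun n => by simp only [aa]; ring) hP T]
  have h6 : ∑ n ∈ T, sn ((x : ℝ) - (s + n)) * sn ((x' : ℝ) - (s + n)) * y n = 0 := by
    rw [← hy x hx x' hx' hne]
    exact Finset.sum_congr rfl fun n _ => by ring
  rw [h6]
  ring

/-- the special weights -/
theorem weights (hLAG : S_LAG) {s : ℝ} {A : Finset (XS s)} (T : Finset ℤ)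
    (hT : T.card = A.card) : ∃ y : ℤ → ℝ, (∏ n ∈ T, y n ≠ 0) ∧
    (∀ x ∈ A, ∀ x' ∈ A, x ≠ x' →
      ∑ n ∈ T, y n * (sn ((x : ℝ) - (s + n)) * sn ((x' : ℝ) - (s + n))) = 0) ∧
    (∏ x ∈ A, ∑ n ∈ T, aa s x n * y n) ≠ 0 := by
  classical
  rcases A.eq_empty_or_nonempty with rfl | hne
  · refine ⟨fun _ => 1, by simp, by simp, by simp⟩
  obtain ⟨y, h1, h2, h3⟩ := hLAG (A.image fun x : XS s => (x : ℝ)) s T
    (by rw [Finset.card_image_of_injective _ Subtype.val_injective, hT])
    (hne.image _) (by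
      intro x hx
      obtain ⟨z, _, rfl⟩ := Finset.mem_image.mp hx
      exact z.2)
  refine ⟨y, Finset.prod_ne_zero_iff.mpr h1, ?_, ?_⟩
  · intro x hx x' hx' hxx
    exact h2 _ (Finset.mem_image_of_mem _ hx) _ (Finset.mem_image_of_mem _ hx')
      (fun h => hxx (Subtype.ext h))
  · refine Finset.prod_ne_zero_iff.mpr fun x hx => ?_
    have := h3 _ (Finset.mem_image_of_mem (fun x : XS s => (x : ℝ)) hx)
    intro h0
    apply this
    rw [← h0]
    exact Finset.sum_congr rfl fun n _ => by simp only [aa]; ring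

/-- all masses exist -/
theorem hol_all (hRAY : S_RAY) (hHH : S_HH) (hONE : S_ONE) (hLAT : S_LAT) (hSTEP : S_STEP)
    (h3 : S_3PT) (hSUM2 : S_SUM2) (hDI : S_DI) (hPAIR : S_PAIR) (hVST : S_VST) (hLAG : S_LAG)
    {r : Finset ℝ → ℝ} (h : Pr r) {s : ℝ} : ∀ (k : ℕ) (A : Finset (XS s)), A.card = k → GoodA A →
      (∃ e, Hol (gg r s) A e) ∧ ∀ e, Hol (gg r s) A e → ∀ T : Finset ℤ, T.card = A.card → 0 < e T := by
  classical
  intro k
  induction k using Nat.strong_induction_on with
  | _ k ih =>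
    intro A hk hA
    have hS := sys_gg hRAY hHH hONE hLAT h s
    have hex : ∃ e, Hol (gg r s) A e := by
      rcases Nat.lt_or_ge k 2 with hk2 | hk2
      · interval_cases k
        · rw [Finset.card_eq_zero] at hk
          subst hk
          exact ⟨_, hol_empty hS⟩
        · obtain ⟨x, rfl⟩ := Finset.card_eq_one.mp hk
          exact ⟨_, hol_one hS x⟩
      · obtain ⟨i, hi⟩ : A.Nonempty := Finset.card_pos.mp (by omega)
        obtain ⟨j, hj⟩ : (A.erase i).Nonempty := by
          apply Finset.card_pos.mp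
          rw [Finset.card_erase_of_mem hi]; omega
        set B := (A.erase i).erase j with hB
        have hji : j ≠ i := (Finset.mem_erase.mp hj).1
        have hjA : j ∈ A := (Finset.mem_erase.mp hj).2
        have hAe : insert i (insert j B) = A := by
          rw [hB, Finset.insert_erase hj, Finset.insert_erase hi]
        have hiB : i ∉ B := by simp [hB]
        have hjB : j ∉ B := by simp [hB]
        have hBc : B.card = k - 2 := by
          rw [hB, Finset.card_erase_of_mem hj, Finset.card_erase_of_mem hi, hk]; omega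
        have hBA : B ⊆ A := (Finset.erase_subset _ _).trans (Finset.erase_subset _ _)
        have hiBA : insert i B ⊆ A := Finset.insert_subset hi hBA
        have hjBA : insert j B ⊆ A := Finset.insert_subset hjA hBA
        obtain ⟨⟨e0, h0⟩, p0⟩ := ih B.card (by omega) B rfl (hA.mono hBA)
        obtain ⟨⟨e1, h1⟩, p1⟩ := ih (insert i B).card
          (by rw [Finset.card_insert_of_notMem hiB]; omega) _ rfl (hA.mono hiBA)
        obtain ⟨⟨e2, h2⟩, p2⟩ := ih (insert j B).card
          (by rw [Finset.card_insert_of_notMem hjB]; omega) _ rfl (hA.mono hjBA)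
        rw [← hAe]
        refine hSTEP (XS s) (gg r s) (aa s) hS B i j hji.symm hiB hjB e0 e1 e2 h0 h1 h2
          (p0 e0 h0) ?_ ?_
        · have := p1 e1 h1
          rwa [Finset.card_insert_of_notMem hiB] at this
        · have := p2 e2 h2
          rwa [Finset.card_insert_of_notMem hjB] at this
    refine ⟨hex, ?_⟩
    have hol : ∀ B, B ⊆ A → ∃ e, Hol (gg r s) B e := by
      intro B hBA
      rcases eq_or_ne B A with rfl | hne
      · exact hex
      · have hlt : B.card < k := by
          rw [← hk]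
          exact Finset.card_lt_card (Finset.ssubset_iff_subset_ne.mpr ⟨hBA, hne⟩)
        exact (ih B.card hlt B rfl (hA.mono hBA)).1
    intro e he T hT
    obtain ⟨y, hy0, hy1, hy2⟩ := weights hLAG (s := s) (A := A) T hT
    have hm := mass hRAY hHH hONE hLAT hSTEP h3 hSUM2 hDI hPAIR hVST h hA hol T hT y hy1 e he
    refine lt_of_le_of_ne (he.nonneg T) ?_
    intro h0
    rw [← h0, zero_mul] at hm
    exact hy2 hm.symm

/-- uniqueness at generic points -/
theorem uni_good (hRAY : S_RAY) (hHH : S_HH) (hONE : S_ONE) (hLAT : S_LAT) (hSTEP : S_STEP)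
    (h3 : S_3PT) (hSUM2 : S_SUM2) (hDI : S_DI) (hPAIR : S_PAIR) (hVST : S_VST) (hLAG : S_LAG)
    {r r' : Finset ℝ → ℝ} (h : Pr r) (h' : Pr r') (B : Finset ℝ)
    (hB : ∀ x ∈ B, ∀ x' ∈ B, x ≠ x' → NI x x') : r B = r' B := by
  classical
  obtain ⟨s, hs⟩ : ∃ s : ℝ, ∀ x ∈ B, NI x s := by
    have hc : (⋃ x ∈ B, Set.range fun n : ℤ => x - (n : ℝ)).Countable :=
      B.countable_toSet.biUnion fun x _ => Set.countable_range _
    obtain ⟨s, hs⟩ := (hc.dense_compl ℝ).nonempty
    refine ⟨s, fun x hx n hn => hs ?_⟩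
    simp only [Set.mem_iUnion, Set.mem_range]
    exact ⟨x, hx, n, by linarith⟩
  obtain ⟨A, hA⟩ : ∃ A : Finset (XS s), A.image (fun x : XS s => (x : ℝ)) = B := by
    refine ⟨B.attach.image fun x => (⟨x.1, hs x.1 x.2⟩ : XS s), ?_⟩
    ext u
    simp
    exact hs u
  have hAg : GoodA A := by
    intro x hx x' hx' hne
    refine hB _ ?_ _ ?_ fun h => hne (Subtype.ext h)
    · rw [← hA]; exact Finset.mem_image_of_mem _ hx
    · rw [← hA]; exact Finset.mem_image_of_mem _ hx'
  have hall := hol_all hRAY hHH hONE hLAT hSTEP h3 hSUM2 hDI hPAIR hVST hLAG h (s := s)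
  have hall' := hol_all hRAY hHH hONE hLAT hSTEP h3 hSUM2 hDI hPAIR hVST hLAG h' (s := s)
  obtain ⟨⟨e, he⟩, -⟩ := hall A.card A rfl hAg
  obtain ⟨⟨e', he'⟩, -⟩ := hall' A.card A rfl hAg
  have hee : e = e' := by
    funext T
    by_cases hT : T.card = A.card
    · obtain ⟨y, hy0, hy1, hy2⟩ := weights hLAG (s := s) (A := A) T hT
      have hm := mass hRAY hHH hONE hLAT hSTEP h3 hSUM2 hDI hPAIR hVST h hAg
        (fun C hC => (hall C.card C rfl (hAg.mono hC)).1) T hT y hy1 e he
      have hm' := mass hRAY hHH hONE hLAT hSTEP h3 hSUM2 hDI hPAIR hVST h' hAg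
        (fun C hC => (hall' C.card C rfl (hAg.mono hC)).1) T hT y hy1 e' he'
      exact mul_right_cancel₀ hy0 (hm.trans hm'.symm)
    · rw [he.supp T hT, he'.supp T hT]
  subst hee
  have := (he.sum ∅).unique (he'.sum ∅)
  simpa [gg, hA] using this

end Pool.Agent.Y748.SR
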