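import Pool.Agent.Y748.SR.Uni
import Pool.Agent.Y748.SR.Stm7

/-!
Project SR: uniqueness from the Rayleigh inequalities.
-/

open Finset Filter Topology MeasureTheory

set_option autoImplicit false

namespace Pool.Agent.Y748.SR.R

/-- a nonnegative set function with all Rayleigh inequalities and the correlations of order one and
two of the sine process -/
structure Pr (r : Finset ℝ → ℝ) : Prop where
  ray : Ray r
  nn : ∀ B, 0 ≤ r B
  em : r ∅ = 1
  one : ∀ x, r {x} = 1
  two : ∀ x y, x ≠ y → r {x, y} = 1 - sn (x - y) ^ 2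

theorem sys_gg (hHH : S_HH) (hONE : S_ONE) (hLAT : S_LAT) {r : Finset ℝ → ℝ}
    (h : Pr r) (s : ℝ) : Sys (gg r s) (aa s) := by
  have hray : Ray r := h.ray
  have hp : Function.Injective (fun x : XS s => (x : ℝ)) := Subtype.val_injective
  have hq : Function.Injective (fun n : ℤ => s + (n : ℝ)) := by
    intro m n hmn
    have : (m : ℝ) = n := by simpa using hmn
    exact_mod_cast this
  have hpq : ∀ (x : XS s) (n : ℤ), (x : ℝ) ≠ s + (n : ℝ) := fun x n => (x.2.add n).ne
  have hO := hONE ℝ r (fun n : ℤ => s + (n : ℝ)) hray hq h.em h.one (by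
    intro m n hmn
    have hne : s + (m : ℝ) ≠ s + (n : ℝ) := fun h => hmn (hq h)
    rw [h.two _ _ hne]
    have : s + (m : ℝ) - (s + n) = ((m - n : ℤ) : ℝ) := by push_cast; ring
    rw [this, sn_int _ (sub_ne_zero.mpr hmn)]
    ring)
  have hH := hHH (XS s) ℝ r (fun x : XS s => (x : ℝ)) (fun n : ℤ => s + (n : ℝ)) hray hp hq hpq
  refine ⟨fun A S => h.nn _, fun S => ?_, fun x S => ?_, fun x n => ?_, fun x => ?_, ?_, ?_⟩
  · have := hO.1 S
    simpa [gg] using this
  · have := hO.2 (x : ℝ) (aa s x) (fun n => hpq x n) (fun n => by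
      rw [h.two _ _ (hpq x n)]; rfl) S
    simpa [gg, Finset.singleton_union] using this
  · exact lt_of_le_of_ne (sq_nonneg _) (Ne.symm (pow_ne_zero 2 (x.2.add n).sn_ne))
  · have := hLAT (x : ℝ) (x : ℝ) s x.2 x.2
    rw [sub_self, sn_zero] at this
    convert this using 2 with n
    unfold aa
    ring
  · exact hH.1
  · exact hH.2

theorem three (hHH : S_HH) (hONE : S_ONE) (hLAT : S_LAT) (hSTEP : S_STEP)
    (h3 : S_3PT) (hSUM2 : S_SUM2) (hDI : S_DI) {r : Finset ℝ → ℝ} (h : Pr r) :
    ∀ x y z, NI x y → NI y z → NI x z → r {x, y, z} =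
      r {x, y} + r {x, z} + r {y, z} - 2 + 2 * (sn (x - y) * sn (y - z) * sn (x - z)) := by
  have key := hDI (fun x y z => r {x, y, z} - (r {x, y} + r {x, z} + r {y, z} - 2)) ?_ ?_ ?_ ?_
  · intro x y z hxy hyz hxz
    have := key x y z hxy hyz hxz
    linarith
  · intro x y z
    have e1 : ({x, y, z} : Finset ℝ) = {y, x, z} := by ext u; simp; tauto
    have e2 : ({x, y} : Finset ℝ) = {y, x} := by ext u; simp; tauto
    simp only [e1, e2]
    ring
  · intro x y z
    have e1 : ({x, y, z} : Finset ℝ) = {x, z, y} := by ext u; simp; tauto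
    have e2 : ({y, z} : Finset ℝ) = {z, y} := by ext u; simp; tauto
    simp only [e1, e2]
    ring
  · intro x y z hxy hyz hxz
    have := h3 ℝ r (h.ray) h.em h.one x y z hxy.ne hxz.ne hyz.ne
    have e1 : 1 - r {x, y} = sn (x - y) ^ 2 := by rw [h.two _ _ hxy.ne]; ring
    have e2 : 1 - r {x, z} = sn (x - z) ^ 2 := by rw [h.two _ _ hxz.ne]; ring
    have e3 : 1 - r {y, z} = sn (y - z) ^ 2 := by rw [h.two _ _ hyz.ne]; ring
    rw [e1, e2, e3] at this
    refine abs_le_of_sq_le_sq ?_ (by positivity)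
    refine this.trans (le_of_eq ?_)
    rw [mul_pow, sq_abs]
    ring
  · intro x y z hxy hyz hxz
    have hS := sys_gg hHH hONE hLAT h z
    have hne : (⟨x, hxz⟩ : XS z) ≠ ⟨y, hyz⟩ := by
      intro he
      exact hxy.ne (congrArg Subtype.val he)
    obtain ⟨e, he⟩ := hol_pair hSTEP hS ⟨x, hxz⟩ ⟨y, hyz⟩ hne
    have h1 := hSUM2 _ _ _ e he
    have h2 := (hS.asum ⟨x, hxz⟩).add (hS.asum ⟨y, hyz⟩)
    have h3 := h2.sub h1
    have hcard : (({⟨x, hxz⟩, ⟨y, hyz⟩} : Finset (XS z)).card : ℝ) = 2 := by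
      rw [Finset.card_pair hne]; norm_num
    have h0 : gg r z {⟨x, hxz⟩, ⟨y, hyz⟩} ∅ = 1 - sn (x - y) ^ 2 := by
      simp only [gg, Finset.image_insert, Finset.image_singleton, Finset.image_empty,
        Finset.union_empty]
      exact h.two _ _ hxy.ne
    rw [hcard, h0] at h3
    have h4 : (1 : ℝ) + 1 - 2 * (1 - sn (x - y) ^ 2) = 2 * sn (x - y) ^ 2 := by ring
    rw [h4] at h3
    refine hasSum_cg (fun n => ?_) h3
    have h5 : gg r z {⟨x, hxz⟩, ⟨y, hyz⟩} {n} = r {x, y, z + n} := by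
      simp only [gg, Finset.image_insert, Finset.image_singleton]
      congr 1
      ext u
      simp only [Finset.mem_union, Finset.mem_insert, Finset.mem_singleton, or_assoc]
    rw [h5]
    simp only [aa]
    rw [h.two x y hxy.ne, h.two x (z + n) (hxz.add n).ne, h.two y (z + n) (hyz.add n).ne]
    ring

theorem mass (hHH : S_HH) (hONE : S_ONE) (hLAT : S_LAT) (hSTEP : S_STEP)
    (h3 : S_3PT) (hSUM2 : S_SUM2) (hDI : S_DI) (hPAIR : S_PAIR) (hVST : S_VST)
    {r : Finset ℝ → ℝ} (h : Pr r) {s : ℝ} {A : Finset (XS s)} (hA : GoodA A)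
    (hol : ∀ B, B ⊆ A → ∃ e, Hol (gg r s) B e) (T : Finset ℤ) (hT : T.card = A.card) (y : ℤ → ℝ)
    (hy : ∀ x ∈ A, ∀ x' ∈ A, x ≠ x' →
      ∑ n ∈ T, y n * (sn ((x : ℝ) - (s + n)) * sn ((x' : ℝ) - (s + n))) = 0)
    (e : Finset ℤ → ℝ) (he : Hol (gg r s) A e) :
    e T * ∏ n ∈ T, y n = ∏ x ∈ A, ∑ n ∈ T, aa s x n * y n := by
  classical
  have hS := sys_gg hHH hONE hLAT h s
  set F : Finset (XS s) → Finset ℤ → ℝ := fun B =>
    if B = A then e else if hB : B ⊆ A then (hol B hB).choose else 0 with hF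
  have hFA : F A = e := by rw [hF]; simp
  have hFH : ∀ B, B ⊆ A → Hol (gg r s) B (F B) := by
    intro B hB
    rw [hF]
    by_cases hBA : B = A
    · subst hBA; simpa using he
    · simp only [if_neg hBA, dif_pos hB]
      exact (hol B hB).choose_spec
  have := hVST (XS s) (gg r s) (aa s) hS A F hFH T y hT ?_
  · rwa [hFA] at this
  intro x hx x' hx' hne
  have hNI : NI (x : ℝ) (x' : ℝ) := hA x hx x' hx' hne
  have hsub : ({x, x'} : Finset (XS s)) ⊆ A := by
    intro z hz
    rw [Finset.mem_insert, Finset.mem_singleton] at hz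
    rcases hz with rfl | rfl
    · exact hx
    · exact hx'
  have hP := hPAIR (XS s) (gg r s) (aa s) hS x x' hne (sn ((x : ℝ) - x'))
    (fun n => sn ((x : ℝ) - (s + n)) * sn ((x' : ℝ) - (s + n))) hNI.sn_ne
    (fun n => mul_ne_zero (x.2.add n).sn_ne (x'.2.add n).sn_ne)
    (fun n => by simp only [aa]; ring)
    (by
      simp only [gg, Finset.image_insert, Finset.image_singleton, Finset.image_empty,
        Finset.union_empty]
      exact h.two _ _ hNI.ne)
    (by
      intro n
      have h5 : gg r s {x, x'} {n} = r {(x : ℝ), (x' : ℝ), s + n} := by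
        simp only [gg, Finset.image_insert, Finset.image_singleton]
        congr 1
        ext u
        simp only [Finset.mem_union, Finset.mem_insert, Finset.mem_singleton, or_assoc]
      rw [h5, three hHH hONE hLAT hSTEP h3 hSUM2 hDI h _ _ _ hNI (x'.2.add n) (x.2.add n),
        h.two _ _ hNI.ne, h.two _ _ (x.2.add n).ne, h.two _ _ (x'.2.add n).ne]
      simp only [aa]
      ring)
    (F {x, x'}) (hFH _ hsub)
  have hcard : ({x, x'} : Finset (XS s)).card = 2 := Finset.card_pair hne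
  rw [pair_sum (F {x, x'}) (aa s x) (aa s x')
    (fun n => sn ((x : ℝ) - (s + n)) * sn ((x' : ℝ) - (s + n))) y
    (fun T hT => (hFH _ hsub).supp T (by rw [hcard]; exact hT))
    (fun n => by simp only [aa]; ring) hP T]
  have h6 : ∑ n ∈ T, sn ((x : ℝ) - (s + n)) * sn ((x' : ℝ) - (s + n)) * y n = 0 := by
    rw [← hy x hx x' hx' hne]
    exact Finset.sum_congr rfl fun n _ => by ring
  rw [h6]
  ring

theorem hol_all (hHH : S_HH) (hONE : S_ONE) (hLAT : S_LAT) (hSTEP : S_STEP)
    (h3 : S_3PT) (hSUM2 : S_SUM2) (hDI : S_DI) (hPAIR : S_PAIR) (hVST : S_VST) (hLAG : S_LAG)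
    {r : Finset ℝ → ℝ} (h : Pr r) {s : ℝ} : ∀ (k : ℕ) (A : Finset (XS s)), A.card = k → GoodA A →
      (∃ e, Hol (gg r s) A e) ∧ ∀ e, Hol (gg r s) A e → ∀ T : Finset ℤ, T.card = A.card → 0 < e T := by
  classical
  intro k
  induction k using Nat.strong_induction_on with
  | _ k ih =>
    intro A hk hA
    have hS := sys_gg hHH hONE hLAT h s
    have hex : ∃ e, Hol (gg r s) A e := by
      rcases Nat.lt_or_ge k 2 with hk2 | hk2
      · interval_cases k
        · rw [Finset.card_eq_zero] at hk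
          subst hk
          exact ⟨_, hol_empty hS⟩
        · obtain ⟨x, rfl⟩ := Finset.card_eq_one.mp hk
          exact ⟨_, hol_one hS x⟩
      · obtain ⟨i, hi⟩ : A.Nonempty := Finset.card_pos.mp (by omega)
        obtain ⟨j, hj⟩ : (A.erase i).Nonempty := by
          apply Finset.card_pos.mp
          rw [Finset.card_erase_of_mem hi]; omega
        set B := (A.erase i).erase j with hB
        have hji : j ≠ i := (Finset.mem_erase.mp hj).1
        have hjA : j ∈ A := (Finset.mem_erase.mp hj).2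
        have hAe : insert i (insert j B) = A := by
          rw [hB, Finset.insert_erase hj, Finset.insert_erase hi]
        have hiB : i ∉ B := by simp [hB]
        have hjB : j ∉ B := by simp [hB]
        have hBc : B.card = k - 2 := by
          rw [hB, Finset.card_erase_of_mem hj, Finset.card_erase_of_mem hi, hk]; omega
        have hBA : B ⊆ A := (Finset.erase_subset _ _).trans (Finset.erase_subset _ _)
        have hiBA : insert i B ⊆ A := Finset.insert_subset hi hBA
        have hjBA : insert j B ⊆ A := Finset.insert_subset hjA hBA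
        obtain ⟨⟨e0, h0⟩, p0⟩ := ih B.card (by omega) B rfl (hA.mono hBA)
        obtain ⟨⟨e1, h1⟩, p1⟩ := ih (insert i B).card
          (by rw [Finset.card_insert_of_notMem hiB]; omega) _ rfl (hA.mono hiBA)
        obtain ⟨⟨e2, h2⟩, p2⟩ := ih (insert j B).card
          (by rw [Finset.card_insert_of_notMem hjB]; omega) _ rfl (hA.mono hjBA)
        rw [← hAe]
        refine hSTEP (XS s) (gg r s) (aa s) hS B i j hji.symm hiB hjB e0 e1 e2 h0 h1 h2
          (p0 e0 h0) ?_ ?_
        · have := p1 e1 h1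
          rwa [Finset.card_insert_of_notMem hiB] at this
        · have := p2 e2 h2
          rwa [Finset.card_insert_of_notMem hjB] at this
    refine ⟨hex, ?_⟩
    have hol : ∀ B, B ⊆ A → ∃ e, Hol (gg r s) B e := by
      intro B hBA
      rcases eq_or_ne B A with rfl | hne
      · exact hex
      · have hlt : B.card < k := by
          rw [← hk]
          exact Finset.card_lt_card (Finset.ssubset_iff_subset_ne.mpr ⟨hBA, hne⟩)
        exact (ih B.card hlt B rfl (hA.mono hBA)).1
    intro e he T hT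
    obtain ⟨y, hy0, hy1, hy2⟩ := weights hLAG (s := s) (A := A) T hT
    have hm := mass hHH hONE hLAT hSTEP h3 hSUM2 hDI hPAIR hVST h hA hol T hT y hy1 e he
    refine lt_of_le_of_ne (he.nonneg T) ?_
    intro h0
    rw [← h0, zero_mul] at hm
    exact hy2 hm.symm

theorem uni_good (hHH : S_HH) (hONE : S_ONE) (hLAT : S_LAT) (hSTEP : S_STEP)
    (h3 : S_3PT) (hSUM2 : S_SUM2) (hDI : S_DI) (hPAIR : S_PAIR) (hVST : S_VST) (hLAG : S_LAG)
    {r r' : Finset ℝ → ℝ} (h : Pr r) (h' : Pr r') (B : Finset ℝ)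
    (hB : ∀ x ∈ B, ∀ x' ∈ B, x ≠ x' → NI x x') : r B = r' B := by
  classical
  obtain ⟨s, hs⟩ : ∃ s : ℝ, ∀ x ∈ B, NI x s := by
    have hc : (⋃ x ∈ B, Set.range fun n : ℤ => x - (n : ℝ)).Countable :=
      B.countable_toSet.biUnion fun x _ => Set.countable_range _
    obtain ⟨s, hs⟩ := (hc.dense_compl ℝ).nonempty
    refine ⟨s, fun x hx n hn => hs ?_⟩
    simp only [Set.mem_iUnion, Set.mem_range]
    exact ⟨x, hx, n, by linarith⟩
  obtain ⟨A, hA⟩ : ∃ A : Finset (XS s), A.image (fun x : XS s => (x : ℝ)) = B := by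
    refine ⟨B.attach.image fun x => (⟨x.1, hs x.1 x.2⟩ : XS s), ?_⟩
    ext u
    simp
    exact hs u
  have hAg : GoodA A := by
    intro x hx x' hx' hne
    refine hB _ ?_ _ ?_ fun h => hne (Subtype.ext h)
    · rw [← hA]; exact Finset.mem_image_of_mem _ hx
    · rw [← hA]; exact Finset.mem_image_of_mem _ hx'
  have hall := hol_all hHH hONE hLAT hSTEP h3 hSUM2 hDI hPAIR hVST hLAG h (s := s)
  have hall' := hol_all hHH hONE hLAT hSTEP h3 hSUM2 hDI hPAIR hVST hLAG h' (s := s)
  obtain ⟨⟨e, he⟩, -⟩ := hall A.card A rfl hAg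
  obtain ⟨⟨e', he'⟩, -⟩ := hall' A.card A rfl hAg
  have hee : e = e' := by
    funext T
    by_cases hT : T.card = A.card
    · obtain ⟨y, hy0, hy1, hy2⟩ := weights hLAG (s := s) (A := A) T hT
      have hm := mass hHH hONE hLAT hSTEP h3 hSUM2 hDI hPAIR hVST h hAg
        (fun C hC => (hall C.card C rfl (hAg.mono hC)).1) T hT y hy1 e he
      have hm' := mass hHH hONE hLAT hSTEP h3 hSUM2 hDI hPAIR hVST h' hAg
        (fun C hC => (hall' C.card C rfl (hAg.mono hC)).1) T hT y hy1 e' he'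
      exact mul_right_cancel₀ hy0 (hm.trans hm'.symm)
    · rw [he.supp T hT, he'.supp T hT]
  subst hee
  have := (he.sum ∅).unique (he'.sum ∅)
  simpa [gg, hA] using this

end Pool.Agent.Y748.SR.R
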